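import Pool.Agent.H29.T1.Base

/-!
# T1: the concrete setting: `R` is the integral closure of `F[t]` in `K`
-/

set_option autoImplicit false

namespace Pool.T1

open Polynomial Matrix Pool.HYP Pool.TOW Pool.AVS IsDedekindDomain

section Con

variable (F : Type) [Field F] (K : Type) [Field K] [Algebra (RatFunc F) K]

/-- `K` as an algebra over `F[t]`. -/
@[reducible] noncomputable def algX : Algebra F[X] K :=
  ((algebraMap (RatFunc F) K).comp (algebraMap F[X] (RatFunc F))).toAlgebra

/-- The integral closure of `F[t]` in `K`, as a subring of `K`. -/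
noncomputable def RS : Subring K :=
  letI := algX F K
  (integralClosure F[X] K).toSubring

/-- The integral closure of `F[t]` in `K`. -/
abbrev RR : Type := RS F K

theorem mem_RS (a : K) : a ∈ RS F K ↔
    ((algebraMap (RatFunc F) K).comp (algebraMap F[X] (RatFunc F))).IsIntegralElem a := Iff.rfl

noncomputable instance : Algebra (RR F K) K := (RS F K).subtype.toAlgebra

theorem algMap_RR (a : RR F K) : algebraMap (RR F K) K a = (a : K) := rfl

/-- The embedding of `F[t]`. -/
noncomputable def xR : F[X] →+* RR F K :=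
  letI := algX F K
  (algebraMap F[X] (integralClosure F[X] K))

theorem xR_coe (p : F[X]) : ((xR F K p : RR F K) : K) =
    algebraMap (RatFunc F) K (algebraMap F[X] (RatFunc F) p) := rfl

noncomputable instance : Algebra F[X] (RR F K) := (xR F K).toAlgebra

instance [FiniteDimensional (RatFunc F) K] [Algebra.IsSeparable (RatFunc F) K] :
    IsDedekindDomain (RR F K) := by
  let := algX F K
  have : IsScalarTower F[X] (RatFunc F) K := IsScalarTower.of_algebraMap_eq fun x => rfl
  exact (integralClosure.isDedekindDomain F[X] (RatFunc F) K)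

instance [FiniteDimensional (RatFunc F) K] : IsFractionRing (RR F K) K := by
  let := algX F K
  have : IsScalarTower F[X] (RatFunc F) K := IsScalarTower.of_algebraMap_eq fun x => rfl
  exact integralClosure.isFractionRing_of_finite_extension (RatFunc F) K

theorem finite_RR [FiniteDimensional (RatFunc F) K] [Algebra.IsSeparable (RatFunc F) K] :
    Module.Finite F[X] (RR F K) := by
  let := algX F K
  have : IsScalarTower F[X] (RatFunc F) K := IsScalarTower.of_algebraMap_eq fun x => rfl
  exact IsIntegralClosure.finite F[X] (RatFunc F) K (integralClosure F[X] K)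

end Con

/-- A uniformizer of a valuation ring. -/
def Unif {K : Type} [Field K] (O : ValuationSubring K) (π : K) : Prop :=
  π ≠ 0 ∧ π ∈ O ∧ π⁻¹ ∉ O ∧ ∀ z : K, z ∈ O → z⁻¹ ∉ O → z / π ∈ O

/-- GRI: the concrete setting is an instance of the abstract one. -/
def GRIStmt : Prop :=
  ∀ (F : Type) [Field F] [Finite F], (2 : F) ≠ 0 → ∀ (K : Type) [Field K]
    [Algebra (RatFunc F) K] [FiniteDimensional (RatFunc F) K] [Algebra.IsSeparable (RatFunc F) K]
    (O : ValuationSubring K), OnePole F O →
    (∃ π : K, Unif O π) ∧ ∀ π : K, Unif O π → GR (RR F K) O π ∧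
      ∀ (m : ℕ) (a : K), Pole F O m a ↔ ∃ r ∈ Lm (RR F K) O π (m : ℤ), algebraMap (RR F K) K r = a

/-- DERI: the derivation. -/
def DERIStmt : Prop :=
  ∀ (F : Type) [Field F] [Finite F], (2 : F) ≠ 0 → ∀ (K : Type) [Field K]
    [Algebra (RatFunc F) K] [FiniteDimensional (RatFunc F) K] [Algebra.IsSeparable (RatFunc F) K]
    (O : ValuationSubring K), OnePole F O → ∀ π : K, Unif O π → Der (RR F K) O π

/-- MINKI: short vectors in self-dual lattices. -/
def MINKIStmt : Prop :=
  ∀ (F : Type) [Field F] [Finite F], (2 : F) ≠ 0 → ∀ (K : Type) [Field K]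
    [Algebra (RatFunc F) K] [FiniteDimensional (RatFunc F) K] [Algebra.IsSeparable (RatFunc F) K]
    (O : ValuationSubring K), OnePole F O → ∀ π : K, Unif O π → Mink (RR F K) O π

/-- RECI: reciprocity. -/
def RECIStmt : Prop :=
  ∀ (F : Type) [Field F] [Finite F], (2 : F) ≠ 0 → ∀ (K : Type) [Field K]
    [Algebra (RatFunc F) K] [FiniteDimensional (RatFunc F) K] [Algebra.IsSeparable (RatFunc F) K]
    (O : ValuationSubring K), OnePole F O → ∀ π : K, Unif O π →
    ∃ Ram : Finset (HeightOneSpectrum (RR F K)), Rec (R := RR F K) (O := O) π Ram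

end Pool.T1
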