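import Pool.Agent.H58.T1.S1

/-!
# T1, row FUL
-/

set_option autoImplicit false

namespace Pool.T1

open Polynomial Matrix Pool.HYP Pool.TOW Pool.AVS IsDedekindDomain

theorem ful : FULStmt := by
  intro R _ _ K _ _ _ O π H I m s t ht h1 h2 hF x hx
  have hinj : Function.Injective (algebraMap R K) := IsFractionRing.injective R K
  have ht0 : algebraMap R K t ≠ 0 := fun h => ht (hinj (h.trans (map_zero _).symm))
  have hπ : π ≠ 0 := H.pi_ne
  obtain ⟨a, ⟨ha1, ha2⟩, ha3⟩ := hF (x * (algebraMap R K t * π ^ s)⁻¹) (O.mul_mem _ _ hx h2)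
  refine ⟨t * a, ⟨?_, I.mul_mem_left t ha2⟩, ?_⟩
  · show algebraMap R K (t * a) * π ^ (m + s) ∈ O
    have e : algebraMap R K (t * a) * π ^ (m + s) =
        (algebraMap R K t * π ^ s) * (algebraMap R K a * π ^ m) := by
      rw [map_mul, zpow_add₀ hπ]
      ring
    rw [e]
    exact O.mul_mem _ _ h1 ha1
  · have e : (algebraMap R K (t * a) * π ^ (m + s) - x) / π =
        (algebraMap R K t * π ^ s) *
          ((algebraMap R K a * π ^ m - x * (algebraMap R K t * π ^ s)⁻¹) / π) := by
      rw [map_mul, zpow_add₀ hπ]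
      have hs : π ^ s ≠ 0 := zpow_ne_zero _ hπ
      field_simp
    rw [e]
    exact O.mul_mem _ _ h1 ha3

end Pool.T1
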