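import Pool.Agent.H29.T1.POSb
import Pool.Agent.H41.HYP.S3

/-!
# T1: statements of the modules, part 2 (completions, Selmer classes, a twist with trivial Selmer
group)
-/

set_option autoImplicit false

namespace Pool.T1

open Polynomial Matrix Pool.HYP Pool.TOW Pool.AVS IsDedekindDomain

section Defs2

/-- Over `L`, the class of `h` (for `f`) is the class of a divisor of the twist
`y² = d^(2g+1) f(x/d)`. -/
def LSDK {R : Type} [CommRing R] {K : Type} [Field K] [Algebra R K] {L : Type} [Field L]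
    (ι : K →+* L) (d : R) (f : R[X]) (h : K[X]) : Prop :=
  ∃ u w s : L[X], u.Monic ∧ IsCoprime u ((fk K (f.scaleRoots d)).map ι) ∧
    u ∣ w ^ 2 - (fk K (f.scaleRoots d)).map ι ∧
    (fk K f).map ι ∣ kap (u.comp (C (ι (algebraMap R K d)) * X)) - h.map ι * s ^ 2

end Defs2

/-- LINB: a totally isotropic subgroup is transversal to one of the coordinate subspaces.
(Induction on `T`: for `P ∈ T` one of the two lines `m = {x.1 = 0}`, `{x.2 = 0}` of the plane at
`P` has no nonzero element which is in `W`; take the elements of `W` whose component at `P` is in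
`m`, modulo `m`.) -/
def LINBStmt : Prop :=
  ∀ (I : Type) (T : Finset I) (W : Set (I → Ty)), (∀ x ∈ W, ∀ y ∈ W, x + y ∈ W) →
    (∀ x ∈ W, ∀ y ∈ W, ∑ P ∈ T, ((x P).1 * (y P).2 + (x P).2 * (y P).1) = 0) →
    ∃ S ⊆ T, ∀ x ∈ W, (∀ P ∈ S, (x P).2 = 0) → (∀ P ∈ T, P ∉ S → (x P).1 = 0) →
      ∀ P ∈ T, x P = 0

/-- CMPK: existence of the completions.  (`P.adicCompletion K`; `ϖ` in `P`, not in its square; the
residue field is `R ⧸ P`, its characteristic is that of `K`.) -/
def CMPKStmt : Prop :=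
  ∀ (R : Type) [CommRing R] [IsDedekindDomain R] (K : Type) [Field K] [Algebra R K]
    [IsFractionRing R K] (O : ValuationSubring K) (π : K), GR R O π →
    ∀ P : HeightOneSpectrum R, ∃ (ϖ : R) (L : Type) (_ : Field L) (O' : ValuationSubring L)
      (ι : K →+* L), ϖ ∈ P.asIdeal ∧ ϖ ∉ P.asIdeal ^ 2 ∧ CompP P ϖ L O' ι

/-- INOK: from the completion to `R`.  (As INO of HYP, `H29/HYP/INO`.) -/
def INOKStmt : Prop :=
  ∀ (R : Type) [CommRing R] [IsDedekindDomain R] (K : Type) [Field K] [Algebra R K]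
    [IsFractionRing R K] (P : HeightOneSpectrum R) (ϖ : R) (L : Type) [Field L]
    (O' : ValuationSubring L) (ι : K →+* L), CompP P ϖ L O' ι → ∀ f : R[X], f.Monic →
    ∃ fO : O'[X], fO.Monic ∧ fO.natDegree = f.natDegree ∧ oL O' fO = (fk K f).map ι ∧
      (∀ ϖ' : O', (ϖ' : L) = ι (algebraMap R K ϖ) → ∀ γ : O'[X], γ.Monic →
        Irreducible (rd O' γ) → InSq ϖ' fO γ → Sing P.asIdeal f) ∧
      (∀ (c : R) (γ : R[X]) (n : ℕ), OkP n P.asIdeal γ →
        Zer P.asIdeal (f - (X - C c) * γ) →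
        ∃ (c₀ : IsLocalRing.ResidueField O') (γ₀ : (IsLocalRing.ResidueField O')[X]),
          γ₀.Monic ∧ γ₀.natDegree = n ∧ Irreducible γ₀ ∧ rd O' fO = (X - C c₀) * γ₀) ∧
      (∀ (γ : R[X]) (n : ℕ), OkP n P.asIdeal γ → Zer P.asIdeal (f - γ) →
        Irreducible (rd O' fO)) ∧
      (∀ h : K[X], IsCoprime h (fk K f) → (USL O' fO (h.map ι) ↔ US P.asIdeal f h)) ∧
      (∀ h : K[X], IsCoprime h (fk K f) → TRL O' fO (h.map ι) → TR P.asIdeal f h)

/-- IRUK: `f` irreducible of odd degree modulo `P`.  (The form of UNR over the completion: the class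
is `ϖ^n p`, the norm `ϖ^(n (2g+1)) N(p)` is a square, so `n` is even.) -/
def IRUKStmt : Prop :=
  ∀ (R : Type) [CommRing R] [IsDedekindDomain R] (K : Type) [Field K] [Algebra R K]
    [IsFractionRing R K] (P : HeightOneSpectrum R) (ϖ : R) (L : Type) [Field L]
    (O' : ValuationSubring L) (ι : K →+* L), CompP P ϖ L O' ι → ∀ (g : ℕ) (f ρ : R[X])
    (α : K[X]), f.Monic → f.natDegree = 2 * g + 1 → OkP (2 * g + 1) P.asIdeal ρ →
    Zer P.asIdeal (f - ρ) → IsCoprime α (fk K f) → NSq (fk K f) α → US P.asIdeal f α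

/-- LDAK: the classes of the twist at a prime where the twist is unramified.  (As LDA of HYP,
`H24/HYP/LDA`: EVN.) -/
def LDAKStmt : Prop :=
  ∀ (R : Type) [CommRing R] [IsDedekindDomain R] (K : Type) [Field K] [Algebra R K]
    [IsFractionRing R K] (P : HeightOneSpectrum R) (ϖ : R) (L : Type) [Field L]
    (O' : ValuationSubring L) (ι : K →+* L), CompP P ϖ L O' ι → ∀ (g : ℕ) (f : R[X]) (d : R)
    (α : K[X]), f.Monic → f.natDegree = 2 * g + 1 → ¬ Sing P.asIdeal f → d ∉ P.asIdeal →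
    IsCoprime α (fk K f) → NSq (fk K f) α → LSDK ι d f α → US P.asIdeal f α

/-- LDBK: the classes of the twist at a prime where the twist is ramified.  (As LDB of HYP,
`H85/HYP/LDB`: TW2.) -/
def LDBKStmt : Prop :=
  ∀ (R : Type) [CommRing R] [IsDedekindDomain R] (K : Type) [Field K] [Algebra R K]
    [IsFractionRing R K] (P : HeightOneSpectrum R) (ϖ : R) (L : Type) [Field L]
    (O' : ValuationSubring L) (ι : K →+* L), CompP P ϖ L O' ι → ∀ (g : ℕ) (f : R[X]) (d : R)
    (α : K[X]) (c : O') (γ : O'[X]) (x : Ty), 1 ≤ g → f.Monic → f.natDegree = 2 * g + 1 →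
    OkL O' g γ → (fk K f).map ι = oL O' ((X - C c) * γ) → d ∈ P.asIdeal → d ∉ P.asIdeal ^ 2 →
    IsCoprime α (fk K f) → NSq (fk K f) α → LSDK ι d f α →
    TyL O' (ι (algebraMap R K ϖ)) c γ x (α.map ι) → x.2 = 0

/-- TWSK: a nontrivial element of the Selmer group of the twist.  (`α = p(d x)`.) -/
def TWSKStmt : Prop :=
  ∀ (R : Type) [CommRing R] [IsDomain R] (K : Type) [Field K] [Algebra R K]
    [IsFractionRing R K] (g : ℕ) (f : R[X]) (d : R), f.Monic → f.natDegree = 2 * g + 1 →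
    d ≠ 0 → ¬ SelK (fk K (f.scaleRoots d)) →
    ∃ α : K[X], IsCoprime α (fk K f) ∧ NSq (fk K f) α ∧ (¬ ∃ s, fk K f ∣ α - s ^ 2) ∧
      ∀ (L : Type) [Field L] (O' : ValuationSubring L) (ι : K →+* L), Cpl K L O' ι →
        LSDK ι d f α

/-- USMK: classes of units form a group. -/
def USMKStmt : Prop :=
  ∀ (R : Type) [CommRing R] [IsDomain R] (K : Type) [Field K] [Algebra R K] (P : Ideal R)
    (f : R[X]) (h h' : K[X]), US P f h → US P f h' → US P f (h * h')

/-- ONEK: a twist with trivial Selmer group.  (`W` is the set of the types at `T` of the classes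
which are classes of units outside `T`; REC, LINB, `H86/HYP/ONE`.) -/
def ONEKStmt : Prop :=
  ∀ (R : Type) [CommRing R] [IsDedekindDomain R] (K : Type) [Field K] [Algebra R K]
    [IsFractionRing R K] (O : ValuationSubring K) (π : K), GR R O π →
    ∀ (g : ℕ) (Ram : Finset (HeightOneSpectrum R)), 1 ≤ g → Rec (R := R) (O := O) π Ram →
    OneP O π g Ram

end Pool.T1
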