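import Pool.Agent.H94.T1.DENK
import Pool.Agent.H29.T1.S2
import Pool.Agent.H58.T1.S1
import Pool.Agent.H30.T1.S4

/-!
# T1, row POSK: the theorem in the abstract setting, from its parts
-/

set_option autoImplicit false

namespace Pool.T1

open Polynomial Matrix Pool.HYP Pool.TOW Pool.AVS IsDedekindDomain

theorem posk (hCLS : CLSKStmt) (hDS : DSKStmt) (hEA : EXDAStmt) (hEB : EXDBStmt)
    (hALL : ALLKStmt) (hFAM : FAMKStmt) (hIRR : IRRKStmt) (hTWF : TWFKStmt) (hTWJ : TWJKStmt)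
    (hGRO : GROWStmt) (hBAD : BADKStmt) (hFL : FAMLKStmt) (hA : GRAStmt) (hB : GRBStmt)
    (hE : GREStmt) (hKEY : KEYKStmt) (hONE : ONEKStmt) (hDEN : DENKStmt) : POSKStmt := by
  intro R _ _ K _ _ _ O π H hder hmink hrec g hg
  obtain ⟨-, hU, -, hL, -⟩ := hA R K O π H
  obtain ⟨C, hC⟩ := hB R K O π H
  obtain ⟨hfin, hinf⟩ := hE R K O π H
  obtain ⟨Ck, -, hk⟩ := hKEY R K O π H hmink g hg
  obtain ⟨Ram, hRam⟩ := hrec
  obtain ⟨A, hAd⟩ := hDEN R K O π H hder g hg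
  exact pos_core H hCLS hDS hEA hEB hALL hFAM hIRR hTWF hTWJ hGRO hBAD hFL hU hL
    ⟨C, fun I m h1 h2 => (hC I m h1 h2).1⟩ ⟨C, fun I m h1 h2 => (hC I m h1 h2).2⟩ hfin hinf g hg
    ⟨Ck, hk⟩ Ram A (hONE R K O π H g Ram hg hRam) hAd

end Pool.T1
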