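import Pool.Agent.H29.T1.Base

/-!
# T1: statements of the modules, part 7 (data, size of the family, assembly)
-/

set_option autoImplicit false

namespace Pool.T1

open Polynomial Matrix Pool.HYP Pool.TOW Pool.AVS IsDedekindDomain

section Defs7

/-- The separable elements of `All`. -/
def AllS (R : Type) [CommRing R] {K : Type} [Field K] [Algebra R K] (O : ValuationSubring K)
    (π : K) (g h : ℕ) : Set R[X] :=
  {f | f ∈ All R O π g h ∧ (fk K f).Separable}

/-- The norm of a prime. -/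
noncomputable def Nm {R : Type} [CommRing R] [IsDomain R] (P : HeightOneSpectrum R) : ℕ :=
  Nat.card (R ⧸ P.asIdeal)

/-- `d` may be used for the twist by the subset `S` of `T`. -/
def Twi {R : Type} [CommRing R] [IsDomain R] (T T' S : Finset (HeightOneSpectrum R)) (d : R) :
    Prop :=
  d ≠ 0 ∧ (∀ P ∈ S, d ∈ P.asIdeal ∧ d ∉ P.asIdeal ^ 2) ∧ (∀ P ∈ T, P ∉ S → d ∉ P.asIdeal) ∧
    ∀ P : HeightOneSpectrum R, P ∉ T → P ∉ T' → d ∉ P.asIdeal

/-- The conclusion in the abstract setting. -/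
def Pos (R : Type) [CommRing R] {K : Type} [Field K] [Algebra R K] (O : ValuationSubring K)
    (π : K) (g : ℕ) : Prop :=
  ∃ δ : ℝ, 0 < δ ∧ ∃ h0 : ℕ, ∀ h : ℕ, h0 ≤ h →
    (All R O π g h).Finite ∧ 0 < (AllS R O π g h).ncard ∧
    δ * (AllS R O π g h).ncard ≤
      {f ∈ AllS R O π g h | SelK (fk K f) ∧ Irreducible (fk K f)}.ncard

/-- The conclusion for `a_1 = 0`. -/
def PosZ (R : Type) [CommRing R] {K : Type} [Field K] [Algebra R K] (O : ValuationSubring K)
    (π : K) (g : ℕ) : Prop :=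
  ∃ δ : ℝ, 0 < δ ∧ ∃ h0 : ℕ, ∀ h : ℕ, h0 ≤ h →
    0 < {f ∈ AllS R O π g h | f.coeff (2 * g) = 0}.ncard ∧
    δ * {f ∈ AllS R O π g h | f.coeff (2 * g) = 0}.ncard ≤
      {f ∈ AllS R O π g h | f.coeff (2 * g) = 0 ∧ SelK (fk K f) ∧
        Irreducible (fk K f)}.ncard

end Defs7

/-- CLSK: representatives of the ideal classes.  (`𝔞` runs through integral representatives of the
finitely many ideal classes, `B` is the set of the primes dividing them, `P 𝔞 = (d)`.) -/
def CLSKStmt : Prop :=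
  ∀ (R : Type) [CommRing R] [IsDedekindDomain R] (K : Type) [Field K] [Algebra R K]
    [IsFractionRing R K] (O : ValuationSubring K) (π : K), GR R O π →
    ∃ B : Finset (HeightOneSpectrum R), ∀ P : HeightOneSpectrum R, P ∉ B →
      ∃ d : R, d ∈ P.asIdeal ∧ d ∉ P.asIdeal ^ 2 ∧
        ∀ P' : HeightOneSpectrum R, P' ≠ P → d ∈ P'.asIdeal → P' ∈ B

/-- DSK: the twisting elements: products of the `d` of CLSK; they are in some `Lm E`. -/
def DSKStmt : Prop :=
  ∀ (R : Type) [CommRing R] [IsDedekindDomain R] (K : Type) [Field K] [Algebra R K]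
    [IsFractionRing R K] (O : ValuationSubring K) (π : K), GR R O π →
    ∀ B T' T : Finset (HeightOneSpectrum R), B ⊆ T' → Disjoint T T' →
    (∀ P : HeightOneSpectrum R, P ∉ B → ∃ d : R, d ∈ P.asIdeal ∧ d ∉ P.asIdeal ^ 2 ∧
      ∀ P' : HeightOneSpectrum R, P' ≠ P → d ∈ P'.asIdeal → P' ∈ B) →
    ∃ E : ℕ, ∀ S ⊆ T, ∃ d ∈ Lm R O π (E : ℤ), Twi T T' S d

/-- EXDA: existence of the data at `T'` and at infinity (irreducible polynomials of every positive
degree over a finite field, lifted). -/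
def EXDAStmt : Prop :=
  ∀ (R : Type) [CommRing R] [IsDedekindDomain R] (K : Type) [Field K] [Algebra R K]
    [IsFractionRing R K] (O : ValuationSubring K) (π : K), GR R O π →
    ∀ (g : ℕ) (T' : Finset (HeightOneSpectrum R)), 1 ≤ g →
    ∃ D : Dat R O, D.Ok g ∧ D.T = ∅ ∧ D.T' = T'

/-- EXDB: existence of the data at `T`. -/
def EXDBStmt : Prop :=
  ∀ (R : Type) [CommRing R] [IsDedekindDomain R] (K : Type) [Field K] [Algebra R K]
    [IsFractionRing R K] (O : ValuationSubring K) (π : K), GR R O π →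
    (∀ A : Finset (HeightOneSpectrum R), ∃ P : HeightOneSpectrum R, P ∉ A) →
    (∀ b : ℕ, {P : HeightOneSpectrum R | Nm P ≤ b}.Finite) →
    ∀ (g : ℕ) (D₀ : Dat R O) (k b : ℕ), 1 ≤ g → D₀.Ok g → D₀.T = ∅ →
    ∃ D : Dat R O, D.Ok g ∧ D.T.card = k ∧ (∀ P ∈ D.T, b < Nm P) ∧ D.T' = D₀.T' ∧
      D.ρ = D₀.ρ ∧ D.top = D₀.top

/-- ALLK: the number of all polynomials. -/
def ALLKStmt : Prop :=
  ∀ (R : Type) [CommRing R] [IsDedekindDomain R] (K : Type) [Field K] [Algebra R K]
    [IsFractionRing R K] (O : ValuationSubring K) (π : K), GR R O π →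
    (∀ m : ℤ, (Lm R O π m).Finite) →
    ∀ g h : ℕ, (All R O π g h).Finite ∧
      (All R O π g h).ncard = ∏ i ∈ Finset.Icc 1 (2 * g + 1), (Lm R O π ((i * h : ℕ) : ℤ)).ncard

/-- FAMK: the number of the elements of the family (from the exact form of the distribution modulo
the product of the primes of `T` and `T'` and at infinity). -/
def FAMKStmt : Prop :=
  ∀ (R : Type) [CommRing R] [IsDedekindDomain R] (K : Type) [Field K] [Algebra R K]
    [IsFractionRing R K] (O : ValuationSubring K) (π : K), GR R O π →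
    (∀ m : ℤ, (Lm R O π m).Finite) →
    (∃ C : ℕ, ∀ (I : Ideal R) (m : ℕ), I ≠ ⊥ → C * Nat.card (R ⧸ I) ≤ qq O ^ m →
      ∀ (r : R) (x : K), x ∈ O →
      {a ∈ Lm R O π (m : ℤ) | a - r ∈ I ∧ (algebraMap R K a * π ^ m - x) / π ∈ O}.ncard *
        Nat.card (R ⧸ I) * qq O = (Lm R O π (m : ℤ)).ncard) →
    ∀ (g : ℕ) (D : Dat R O), 1 ≤ g → D.Ok g → ∃ h₀ : ℕ, ∀ h : ℕ, h₀ ≤ h →
      (Fam π g D h).ncard * (∏ P ∈ D.T, Nm P ^ (2 * g + 1)) *
          (∏ P ∈ D.T', Nm P ^ (2 * g + 1)) * qq O ^ (2 * g + 1) =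
        (All R O π g h).ncard

/-- IRRK: the elements of the family are irreducible and separable over `K`. -/
def IRRKStmt : Prop :=
  ∀ (R : Type) [CommRing R] [IsDedekindDomain R] (K : Type) [Field K] [Algebra R K]
    [IsFractionRing R K] (O : ValuationSubring K) (π : K), GR R O π →
    ∀ (g : ℕ) (D : Dat R O) (h : ℕ), 1 ≤ g → D.Ok g → ∀ f ∈ Fam π g D h,
      Irreducible (fk K f) ∧ (fk K f).Separable

/-- TWFK: the twists of the elements of the family. -/
def TWFKStmt : Prop :=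
  ∀ (R : Type) [CommRing R] [IsDedekindDomain R] (K : Type) [Field K] [Algebra R K]
    [IsFractionRing R K] (O : ValuationSubring K) (π : K), GR R O π →
    ∀ (g h E : ℕ) (f : R[X]) (d : R), f ∈ AllS R O π g h → d ≠ 0 →
      d ∈ Lm R O π (E : ℤ) → f.scaleRoots d ∈ AllS R O π g (h + E)

/-- TWJK: scaling of the roots is injective. -/
def TWJKStmt : Prop :=
  ∀ (R : Type) [CommRing R] [IsDomain R] (d : R), d ≠ 0 →
    Function.Injective fun f : R[X] => f.scaleRoots d

/-- GROW: growth of the number of all polynomials. -/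
def GROWStmt : Prop :=
  ∀ (R : Type) [CommRing R] [IsDedekindDomain R] (K : Type) [Field K] [Algebra R K]
    [IsFractionRing R K] (O : ValuationSubring K) (π : K), GR R O π →
    (∀ m : ℤ, (Lm R O π m).Finite ∧ (Lm R O π m).ncard ≤ qq O ^ (m + 1).toNat) →
    (∃ c : ℕ, ∀ m : ℕ, qq O ^ (m + 1) ≤ c * (Lm R O π (m : ℤ)).ncard) →
    ∀ g E : ℕ, ∃ c : ℕ, ∀ h : ℕ,
      (All R O π g (h + E)).ncard ≤ c * (All R O π g h).ncard

/-- TRAK: translation of `x` and the Selmer group. -/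
def TRAKStmt : Prop :=
  ∀ (K : Type) [Field K] (f : K[X]) (c : K), f.Monic → (SelK (f.comp (X - C c)) ↔ SelK f)

/-- ZERK: the equations with `a_1 = 0`. -/
def ZERKStmt : Prop :=
  ∀ (R : Type) [CommRing R] [IsDedekindDomain R] (K : Type) [Field K] [Algebra R K]
    [IsFractionRing R K] (O : ValuationSubring K) (π : K), GR R O π →
    ∀ g : ℕ, 1 ≤ g → IsUnit ((2 * g + 1 : ℕ) : R) → Pos R O π g → PosZ R O π g

/-- POSK: the theorem in the abstract setting, from its parts. -/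
def POSKStmt : Prop :=
  ∀ (R : Type) [CommRing R] [IsDedekindDomain R] (K : Type) [Field K] [Algebra R K]
    [IsFractionRing R K] (O : ValuationSubring K) (π : K), GR R O π → Der R O π → Mink R O π →
    (∃ Ram : Finset (HeightOneSpectrum R), Rec (R := R) (O := O) π Ram) →
    ∀ g : ℕ, 1 ≤ g → Pos R O π g

end Pool.T1
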