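import Pool.Agent.H29.T1.POSa

/-!
# T1, row POSK: the theorem in the abstract setting, from its parts
-/

set_option autoImplicit false

namespace Pool.T1

open Polynomial Matrix Pool.HYP Pool.TOW Pool.AVS IsDedekindDomain

/-- ONE for a given ring. -/
def OneP {R : Type} [CommRing R] [IsDomain R] {K : Type} [Field K] [Algebra R K]
    (O : ValuationSubring K) (π : K) (g : ℕ) (Ram : Finset (HeightOneSpectrum R)) : Prop :=
  ∀ (D : Dat R O) (h : ℕ), D.Ok g → Ram ⊆ D.T' → ∀ f ∈ Fam π g D h, Smooth f →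
    ¬ Bad K D.T f → ∃ S ⊆ D.T, ∀ d : R, Twi D.T D.T' S d → SelK (fk K (f.scaleRoots d))

/-- DEN for a given ring. -/
def DenP {R : Type} [CommRing R] [IsDomain R] {K : Type} [Field K] [Algebra R K]
    (O : ValuationSubring K) (π : K) (g : ℕ) (A : Finset (HeightOneSpectrum R)) : Prop :=
  ∀ D : Dat R O, D.Ok g → A ⊆ D.T' → ∃ h₀ : ℕ, ∀ h : ℕ, h₀ ≤ h →
    4 * {f ∈ Fam π g D h | ¬ Smooth f}.ncard ≤ (Fam π g D h).ncard

theorem irr_scale {R : Type} [CommRing R] [IsDomain R] {K : Type} [Field K] [Algebra R K]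
    [FaithfulSMul R K] {f : R[X]} {d : R} (hd : d ≠ 0) (hf : f.Monic)
    (hi : Irreducible (fk K f)) : Irreducible (fk K (f.scaleRoots d)) := by
  have hinj : Function.Injective (algebraMap R K) := FaithfulSMul.algebraMap_injective R K
  have hd' : algebraMap R K d ≠ 0 := fun h => hd (hinj (h.trans (map_zero _).symm))
  have h1 : fk K (f.scaleRoots d) = (fk K f).scaleRoots (algebraMap R K d) := by
    refine (map_scaleRoots f d (algebraMap R K) ?_)
    rw [hf.leadingCoeff]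
    simp
  rw [h1]
  have hm : ((fk K f).scaleRoots (algebraMap R K d)).Monic := (monic_scaleRoots_iff _).2 (hf.map _)
  have hdeg : (fk K f).natDegree ≠ 0 := by
    intro h0
    have : fk K f = 1 := eq_one_of_monic_natDegree_zero (hf.map _) h0
    rw [this] at hi
    exact hi.not_isUnit isUnit_one
  refine (hm.irreducible_iff_natDegree').2 ⟨?_, ?_⟩
  · intro h0
    have := congrArg natDegree h0
    rw [natDegree_scaleRoots, natDegree_one] at this
    exact hdeg this
  · intro p q hp hq hpq hmem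
    have h2 : (fk K f) = ((p * q).scaleRoots (algebraMap R K d)⁻¹) := by
      rw [hpq, ← scaleRoots_mul, mul_inv_cancel₀ hd', scaleRoots_one]
    have h3 : (p * q).scaleRoots (algebraMap R K d)⁻¹ =
        p.scaleRoots (algebraMap R K d)⁻¹ * q.scaleRoots (algebraMap R K d)⁻¹ := by
      refine mul_scaleRoots_of_noZeroDivisors _ _ _
    have hp' : (p.scaleRoots (algebraMap R K d)⁻¹).Monic := (monic_scaleRoots_iff _).2 hp
    have hq' : (q.scaleRoots (algebraMap R K d)⁻¹).Monic := (monic_scaleRoots_iff _).2 hq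
    refine ((hf.map _).irreducible_iff_natDegree'.1 hi).2 _ _ hp' hq' (h3.symm.trans h2.symm) ?_
    rw [natDegree_scaleRoots]
    rw [natDegree_scaleRoots] at hmem
    exact hmem

theorem pos_core {R : Type} [CommRing R] [IsDedekindDomain R] {K : Type} [Field K] [Algebra R K]
    [IsFractionRing R K] {O : ValuationSubring K} {π : K} (H : GR R O π)
    (hCLS : CLSKStmt) (hDS : DSKStmt) (hEA : EXDAStmt) (hEB : EXDBStmt) (hALL : ALLKStmt)
    (hFAM : FAMKStmt) (hIRR : IRRKStmt) (hTWF : TWFKStmt) (hTWJ : TWJKStmt) (hGRO : GROWStmt)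
    (hBAD : BADKStmt) (hFL : FAMLKStmt)
    (hU : CntU R O π) (hL : ∃ c : ℕ, CntL R O π c) (hX : ∃ C : ℕ, CntX R O π C)
    (hC : ∃ C : ℕ, CntC R O π C)
    (hfinP : ∀ b : ℕ, {P : HeightOneSpectrum R | Nm P ≤ b}.Finite)
    (hinfP : ∀ A : Finset (HeightOneSpectrum R), ∃ P : HeightOneSpectrum R, P ∉ A)
    (g : ℕ) (hg : 1 ≤ g) (hKey : ∃ C : ℤ, KeyC R O π g C)
    (Ram A : Finset (HeightOneSpectrum R)) (hone : OneP O π g Ram) (hden : DenP O π g A) :
    Pos R O π g := by
  classical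
  have : FaithfulSMul R K := inferInstance
  obtain ⟨B, hB⟩ := hCLS R K O π H
  set T' : Finset (HeightOneSpectrum R) := A ∪ (Ram ∪ B) with hT'
  obtain ⟨D₀, hD₀, hT0, hT'0⟩ := hEA R K O π H g T' hg
  obtain ⟨cL, hcL⟩ := hL
  have hFamL : ∃ c : ℕ, FamL R O π g c := ⟨_, hFL R K O π H hU hX cL g hcL hg⟩
  obtain ⟨k₀, b, hbad⟩ := hBAD R K O π H hU ⟨cL, hcL⟩ hC g hg hKey hFamL
    (fun D h hD f hf => (hIRR R K O π H g D h hg hD f hf).1) T'
  obtain ⟨D, hD, hcard, hb, hDT', -, -⟩ := hEB R K O π H hinfP hfinP g D₀ k₀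
    (b + 2 * (2 * g + 1) * k₀) hg hD₀ hT0
  have hDT : D.T' = T' := hDT'.trans hT'0
  obtain ⟨h₁, h1⟩ := hbad D hD hDT hcard.ge (fun P hP => by
    have := hb P hP
    rw [hcard]
    constructor <;> omega)
  obtain ⟨h₂, h2⟩ := hden D hD (by rw [hDT, hT']; exact Finset.subset_union_left)
  have hBT : B ⊆ D.T' := by
    rw [hDT, hT']
    exact fun x hx => Finset.mem_union_right _ (Finset.mem_union_right _ hx)
  have hRT : Ram ⊆ D.T' := by
    rw [hDT, hT']
    exact fun x hx => Finset.mem_union_right _ (Finset.mem_union_left _ hx)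
  obtain ⟨E, hE⟩ := hDS R K O π H B D.T' D.T hBT hD.1 hB
  choose! dS hdS using hE
  obtain ⟨h₃, h3⟩ := hFAM R K O π H (fun m => (hU m).1) hX g D hg hD
  obtain ⟨c, hc⟩ := hGRO R K O π H hU ⟨cL, hcL⟩ g E
  set W : ℕ := (∏ P ∈ D.T, Nm P ^ (2 * g + 1)) * (∏ P ∈ D.T', Nm P ^ (2 * g + 1)) *
    qq O ^ (2 * g + 1) with hW
  refine ⟨((c * (W * (2 * D.T.powerset.card)) + 1 : ℕ) : ℝ)⁻¹, by positivity,
    max h₁ (max h₂ h₃) + E, fun h hh => ?_⟩
  obtain ⟨h', rfl⟩ : ∃ h', h = h' + E := ⟨h - E, by omega⟩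
  have hh1 : h₁ ≤ h' := by omega
  have hh2 : h₂ ≤ h' := by omega
  have hh3 : h₃ ≤ h' := by omega
  have hfinA : ∀ n, (All R O π g n).Finite := fun n =>
    (hALL R K O π H (fun m => (hU m).1) g n).1
  have hfinS : (AllS R O π g (h' + E)).Finite := (hfinA _).subset fun f hf => hf.1
  set Bs : Set R[X] := {f ∈ AllS R O π g (h' + E) | SelK (fk K f) ∧ Irreducible (fk K f)}
    with hBs
  have hBfin : Bs.Finite := hfinS.subset fun f hf => hf.1
  have hAfin : (Fam π g D h').Finite := (hfinA h').subset fun f hf => hf.1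
  have hkey : (Fam π g D h').ncard ≤ 2 * D.T.powerset.card * Bs.ncard := by
    refine pigeon (Fam π g D h') hAfin Bs hBfin D.T.powerset
      (fun S f => f.scaleRoots (dS S)) ?_ {f | Bad K D.T f} {f | ¬ Smooth f}
      (h1 h' hh1) (h2 h' hh2) ?_
    · intro S hS
      exact hTWJ R (dS S) (hdS S (Finset.mem_powerset.1 hS)).2.1
    · intro f hf hnb hns
      have hsm : Smooth f := by
        by_contra hcon
        exact hns hcon
      obtain ⟨S, hS, hsel⟩ := hone D h' hD hRT f hf hsm hnb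
      obtain ⟨hd1, hd2⟩ := hdS S hS
      have hirr := hIRR R K O π H g D h' hg hD f hf
      refine ⟨S, Finset.mem_powerset.2 hS, ?_, hsel _ hd2, ?_⟩
      · exact hTWF R K O π H g h' E f (dS S) ⟨hf.1, hirr.2⟩ hd2.1 hd1
      · exact irr_scale hd2.1 hf.1.1 hirr.1
  have hFW := h3 h' hh3
  have hFW' : (Fam π g D h').ncard * W = (All R O π g h').ncard := by
    rw [← hFW, hW]
    ring
  have hAp := all_pos H g h' (hfinA h')
  have hBpos : 0 < Bs.ncard := by
    rcases Nat.eq_zero_or_pos Bs.ncard with h0 | h0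
    · rw [h0, mul_zero] at hkey
      rw [Nat.le_zero.1 hkey, zero_mul] at hFW'
      omega
    · exact h0
  have hBS : Bs.ncard ≤ (AllS R O π g (h' + E)).ncard :=
    Set.ncard_le_ncard (fun f hf => hf.1) hfinS
  refine ⟨hfinA _, by omega, ?_⟩
  have hS1 : (AllS R O π g (h' + E)).ncard ≤ c * (W * (2 * D.T.powerset.card)) * Bs.ncard := by
    calc (AllS R O π g (h' + E)).ncard ≤ (All R O π g (h' + E)).ncard :=
          Set.ncard_le_ncard (fun f hf => hf.1) (hfinA _)
      _ ≤ c * (All R O π g h').ncard := hc h'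
      _ = c * ((Fam π g D h').ncard * W) := by rw [hFW']
      _ ≤ c * ((2 * D.T.powerset.card * Bs.ncard) * W) :=
          Nat.mul_le_mul_left _ (Nat.mul_le_mul_right _ hkey)
      _ = _ := by ring
  have hS2 : ((AllS R O π g (h' + E)).ncard : ℝ) ≤
      ((c * (W * (2 * D.T.powerset.card)) + 1 : ℕ) : ℝ) * (Bs.ncard : ℝ) := by
    have : (AllS R O π g (h' + E)).ncard ≤
        (c * (W * (2 * D.T.powerset.card)) + 1) * Bs.ncard := by
      refine hS1.trans (Nat.mul_le_mul_right _ (Nat.le_succ _))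
    exact_mod_cast this
  have hpos : (0 : ℝ) < ((c * (W * (2 * D.T.powerset.card)) + 1 : ℕ) : ℝ) := by positivity
  rw [inv_mul_le_iff₀ hpos]
  exact hS2

end Pool.T1
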