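import Pool.Agent.H29.T1.FIN
import Pool.Agent.H29.T1.POSK
import Pool.Agent.H29.T1.FUL
import Pool.Agent.H2.T1.Rcl
import Pool.Agent.H3.T1.FUC
import Pool.Agent.H3.T1.PRDK
import Pool.Agent.H3.T1.TRF
import Pool.Agent.H14.T1.BKD
import Pool.Agent.H14.T1.LAGP
import Pool.Agent.H17.T1.MINKI
import Pool.Agent.H17.T1.SNPK
import Pool.Agent.H17.T1.USG
import Pool.Agent.H20.HYP.EV2
import Pool.Agent.H22.T1.EXPK
import Pool.Agent.H22.T1.LDT
import Pool.Agent.H23.T1.BDI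
import Pool.Agent.H23.T1.GRC
import Pool.Agent.H25.HYP.QSP
import Pool.Agent.H28.T1.CTTK
import Pool.Agent.H28.T1.VQB
import Pool.Agent.H30.T1.AVGK
import Pool.Agent.H30.T1.LATTK
import Pool.Agent.H31.T1.PRTK
import Pool.Agent.H33.HYP.MULR
import Pool.Agent.H36.T1.GRA
import Pool.Agent.H36.T1.WAP
import Pool.Agent.H37.T1.CTRK
import Pool.Agent.H37.T1.DERI
import Pool.Agent.H37.T1.GRF
import Pool.Agent.H40.T1.TWSK
import Pool.Agent.H43.T1.GDU
import Pool.Agent.H43.T1.INOK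
import Pool.Agent.H44.T1.LSQ
import Pool.Agent.H45.HYP.EV0
import Pool.Agent.H49.T1.LDS
import Pool.Agent.H50.T1.BADK
import Pool.Agent.H50.T1.CMPK
import Pool.Agent.H50.T1.HYB
import Pool.Agent.H50.T1.QGEK
import Pool.Agent.H50.T1.RCPK
import Pool.Agent.H51.T1.BDP
import Pool.Agent.H51.T1.DIFK
import Pool.Agent.H51.T1.GRB
import Pool.Agent.H52.T1.CLNK
import Pool.Agent.H52.T1.LDBK
import Pool.Agent.H54.T1.LDAK
import Pool.Agent.H54.T1.OIN
import Pool.Agent.H59.HYP.EV1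
import Pool.Agent.H6.HYP.SPC
import Pool.Agent.H6.HYP.SQI
import Pool.Agent.H63.T1.RSLK
import Pool.Agent.H66.T1.FAMLK
import Pool.Agent.H66.T1.QSK
import Pool.Agent.H44.T1.INTR
import Pool.Agent.H70.HYP.NMU
import Pool.Agent.H70.T1.SMSK
import Pool.Agent.H70.T1.T1NK
import Pool.Agent.H71.T1.TWFK
import Pool.Agent.H71.T1.TWJK
import Pool.Agent.H71.T1.ZERK
import Pool.Agent.H72.T1.CTMK
import Pool.Agent.H72.T1.LSA
import Pool.Agent.H74.HYP.UNR
import Pool.Agent.H76.HYP.TW2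
import Pool.Agent.H76.T1.SM1K
import Pool.Agent.H76.T1.SNTK
import Pool.Agent.H77.T1.CT1K
import Pool.Agent.H77.T1.LDP
import Pool.Agent.H78.T1.EQFK
import Pool.Agent.H78.T1.GRI
import Pool.Agent.H78.T1.IRRK
import Pool.Agent.H81.T1.BAS
import Pool.Agent.H81.T1.CLSK
import Pool.Agent.H81.T1.DSK
import Pool.Agent.H81.T1.SEMC
import Pool.Agent.H82.T1.ALLK
import Pool.Agent.H82.T1.GROW
import Pool.Agent.H83.T1.GRD
import Pool.Agent.H83.T1.IPV
import Pool.Agent.H83.T1.IRUK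
import Pool.Agent.H85.HYP.EVN
import Pool.Agent.H85.T1.FAMK
import Pool.Agent.H85.T1.RECA
import Pool.Agent.H87.T1.DDK
import Pool.Agent.H87.T1.GRE
import Pool.Agent.H87.T1.LINB
import Pool.Agent.H87.T1.RSD
import Pool.Agent.H88.T1.CTSK
import Pool.Agent.H88.T1.SEMA
import Pool.Agent.H88.T1.TRAK
import Pool.Agent.H88.T1.USMK
import Pool.Agent.H9.HYP.SCAL
import Pool.Agent.H90.T1.CT2K
import Pool.Agent.H90.T1.ONEK
import Pool.Agent.H90.T1.QSL
import Pool.Agent.H91.T1.CTAK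
import Pool.Agent.H91.T1.EXDA
import Pool.Agent.H91.T1.EXDB
import Pool.Agent.H91.T1.LIMK
import Pool.Agent.H94.T1.COSK
import Pool.Agent.H94.T1.DENK
import Pool.Agent.H95.T1.SGSK
import Pool.Agent.H96.T1.KEYK
import Pool.Agent.H96.T1.PRNK
import Pool.Agent.H96.T1.SEMB
import Pool.Agent.H96.T1.STP
import Pool.Agent.H98.T1.INFK
import Pool.Agent.H98.T1.NDK

/-!
# T1: assembly
-/

set_option autoImplicit false

namespace Pool.T1.All

open Pool.T1

theorem h_evn : Pool.HYP.EVNStmt := Pool.HYP.evn Pool.HYP.ev0 Pool.HYP.ev1 Pool.HYP.ev2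
theorem h_tw2 : Pool.HYP.TW2Stmt :=
  Pool.HYP.H76.tw2 Pool.HYP.scal Pool.HYP.sqi Pool.HYP.spc Pool.HYP.mulr Pool.HYP.qsp
    Pool.HYP.nmu Pool.HYP.unr
theorem h_tym : Pool.HYP.TYMStmt := Pool.HYP.tym Pool.HYP.unr Pool.HYP.nmu
theorem h_grd : GRDStmt := grd gra stp ful fuc
theorem h_grc : GRCStmt := grc gra stp h_grd
theorem h_grb : GRBStmt := grb gra stp ful fuc h_grd h_grc
theorem h_gre : GREStmt := gre gra h_grd
theorem h_grf : GRFStmt := Pool.T137.GRF gra h_grd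
theorem h_key : KEYKStmt := keyk lattk infk irrk ndk
theorem h_bad : BADKStmt :=
  badk qgek prdk (cttk ctsk) (ctmk ctsk Pool.T137.CTRK) ct1k ct2k ctak (expk difk) (numk difk)
theorem h_cos : COSKStmt := cosk ddk prnk clnk t1nk rslk (snpk ddk)
theorem h_lim : LIMKStmt := limk h_cos (avgk prtk) irrk allk
theorem h_sms : SMSKStmt := smsk (sm1k Pool.T195.SGSK eqfk) sntk
theorem h_den : DENKStmt := denk gra h_grd h_grb h_gre h_grf allk h_lim h_sms
theorem h_lda : LDAKStmt := ldak h_evn Pool.HYP.nmu inok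
theorem h_ldb : LDBKStmt := ldbk h_tw2
theorem h_one : ONEKStmt := onek linb cmpk inok (iruk inok) h_lda h_ldb twsk usmk
theorem h_pos : POSKStmt :=
  posk clsk dsk exda exdb allk famk irrk twfk twjk (grow allk) h_bad (famlk famk allk) gra h_grb
    h_gre h_key h_one h_den
theorem h_minki : MINKIStmt := minki gri

theorem h_gdu : GDUStmt := gdu trf wap semb (semc semb)
theorem h_ldt : LDTStmt :=
  ldt Pool.T1.BKDp.bkd Pool.T1.BKDp.fsq rsd trf wap sema semb (semc semb) vqb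
theorem h_ldp : LDPStmt := ldp h_ldt lds h_gdu wap vqb trf
theorem h_rcl : RCLStmt := Pool.T1.Rcl.rcl Pool.T1.LAGPp.lagp
theorem h_bdp : BDPStmt := bdp hyb ipv trf wap sema semb
theorem h_bdi : BDIStmt := bdi hyb ipv trf oin
theorem h_rcp : RCPKStmt :=
  rcpk h_rcl h_ldp h_gdu h_bdp h_bdi bas sema trf Pool.T1.BKDp.fsq ipv
theorem h_reci : RECIStmt := reca h_rcp usg (lsq lsa) qsl qsk vqb gri h_tym

/-- T1 for an extension of `F(t)`. -/
theorem h_main : MainStmt := fin gri Pool.T137.DERI h_minki h_reci h_pos (zerk trak)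

/-- T1. -/
theorem h_intr : Pool.T44.IntrStmt := Pool.T44.intr h_main

end Pool.T1.All
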