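import Pool.Agent.H29.T1.S7

/-!
# T1: statements of the modules, part 8 (elliptic curves)
-/

set_option autoImplicit false

namespace Pool.T1

open Polynomial Matrix Pool.HYP Pool.TOW Pool.AVS IsDedekindDomain

/-- DIVK: if the 2-Selmer group is trivial, every point of `y² = x³ + a x² + b x + c` is divisible by
two: for every `(x, y)` there is `(x', y')` with `(x, y) = 2 (x', y')`, which is written
out here. -/
def DIVKStmt : Prop :=
  ∀ (K : Type) [Field K], (2 : K) ≠ 0 → ∀ a b c : K,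
    Irreducible (X ^ 3 + C a * X ^ 2 + C b * X + C c : K[X]) →
    SelK (X ^ 3 + C a * X ^ 2 + C b * X + C c : K[X]) →
    ∀ x y : K, y ^ 2 = x ^ 3 + a * x ^ 2 + b * x + c →
    ∃ x' y' : K, y' ^ 2 = x' ^ 3 + a * x' ^ 2 + b * x' + c ∧
      4 * y' ^ 2 * x = x' ^ 4 - 2 * b * x' ^ 2 - 8 * c * x' + b ^ 2 - 4 * a * c

/-- FINK: the group of points is finite. -/
def FINKStmt : Prop :=
  ∀ (R : Type) [CommRing R] [IsDedekindDomain R] (K : Type) [Field K] [Algebra R K]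
    [IsFractionRing R K] (O : ValuationSubring K) (π : K), GR R O π →
    (∀ m : ℤ, (Lm R O π m).Finite) →
    (∀ a : R, a ≠ 0 → ∃ n : ℕ, Nat.card (R ⧸ Ideal.span {a}) = qq O ^ n ∧
      algebraMap R K a * π ^ n ∈ O ∧ (algebraMap R K a * π ^ n)⁻¹ ∈ O) →
    ∀ a b c : K, (X ^ 3 + C a * X ^ 2 + C b * X + C c : K[X]).Separable →
    (∀ x y : K, y ^ 2 = x ^ 3 + a * x ^ 2 + b * x + c →
      ∃ x' y' : K, y' ^ 2 = x' ^ 3 + a * x' ^ 2 + b * x' + c ∧
        4 * y' ^ 2 * x = x' ^ 4 - 2 * b * x' ^ 2 - 8 * c * x' + b ^ 2 - 4 * a * c) →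
    {p : K × K | p.2 ^ 2 = p.1 ^ 3 + a * p.1 ^ 2 + b * p.1 + c}.Finite

end Pool.T1
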