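import Pool.Agent.H29.T1.TDefs
import Pool.Agent.H29.T1.S2
import Pool.Agent.H29.TOW.S

/-!
# T1T: statements of the modules (Selmer groups over extensions)

`R`, `K`, `O`, `π` as in `Base`; `vP K P` is the valuation ring of `K` at the prime `P` of `R`.
-/

set_option autoImplicit false

namespace Pool.T1

open Polynomial Matrix Pool.HYP Pool.TOW Pool.AVS IsDedekindDomain

section DefsZ

/-- The valuation ring of the prime `P`. -/
noncomputable abbrev vP {R : Type} [CommRing R] [IsDedekindDomain R] (K : Type) [Field K]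
    [Algebra R K] [IsFractionRing R K] (P : HeightOneSpectrum R) : ValuationSubring K :=
  (P.valuation K).valuationSubring

/-- A polynomial over `R` as a polynomial over the extension `E` of `K`. -/
noncomputable abbrev fkE {R : Type} [CommRing R] (K E : Type) [Field K] [Field E] [Algebra R K]
    [Algebra K E] (f : R[X]) : E[X] := (fk K f).map (algebraMap K E)

/-- `L` is a complete field in which `P` is unramified, with uniformizer `ϖ`. -/
structure UCP {R : Type} [CommRing R] [IsDomain R] {K : Type} [Field K] [Algebra R K]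
    (P : HeightOneSpectrum R) (ϖ : R) (L : Type) [Field L] (O' : ValuationSubring L)
    (ι : K →+* L) : Prop where
  loc : Loc L O' (ι (algebraMap R K ϖ))
  int : ∀ a : R, ι (algebraMap R K a) ∈ O'
  mem : ∀ a : R, ι (algebraMap R K a) / ι (algebraMap R K ϖ) ∈ O' ↔ a ∈ P.asIdeal

/-- Over `L`, the class of `h` (for `f`) is the class of a divisor of the twist
`y² = d^(2g+1) f(x/d)`. -/
def LSDEK {R : Type} [CommRing R] {K E : Type} [Field K] [Field E] [Algebra R K] [Algebra K E]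
    {L : Type} [Field L] (ι : E →+* L) (d : R) (f : R[X]) (h : E[X]) : Prop :=
  ∃ u w s : L[X], u.Monic ∧ IsCoprime u ((fkE K E (f.scaleRoots d)).map ι) ∧
    u ∣ w ^ 2 - (fkE K E (f.scaleRoots d)).map ι ∧
    (fkE K E f).map ι ∣
      Pool.HYP.kap (u.comp (C (ι (algebraMap K E (algebraMap R K d))) * X)) - h.map ι * s ^ 2

variable {R : Type} [CommRing R] [IsDedekindDomain R] (K : Type) [Field K] [Algebra R K]
  [IsFractionRing R K]

/-- `TowV` for the ring `R`. -/
def TowP (T : Finset (HeightOneSpectrum R)) (f : R[X]) : Prop :=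
  ∀ (E : Type) [Field E] [Algebra K E], FiniteDimensional K E → IsGalois K E →
    (∃ m : ℕ, Module.finrank K E = 2 ^ m) → (∀ P ∈ T, SplV E (vP K P)) →
    (∀ P : HeightOneSpectrum R, UnrV E (vP K P) ∨ Irreducible (md P.asIdeal f)) →
    SelK (fkE K E f)

variable {K}

/-- ON3 for a given ring. -/
def OneTP (O : ValuationSubring K) (π : K) (g : ℕ) (Ram : Finset (HeightOneSpectrum R)) : Prop :=
  ∀ (D : Dat R O) (h : ℕ), D.Ok g → Ram ⊆ D.T' → ∀ f ∈ Fam π g D h, Smooth f →
    ¬ Bad K D.T f → ∃ S ⊆ D.T, ∀ d : R, Twi D.T D.T' S d → TowP K D.T (f.scaleRoots d)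

variable (R)

/-- The conclusion in the abstract setting, for the set `T`. -/
def PosT (O : ValuationSubring K) (π : K) (g : ℕ) (E₀ : Type) [Field E₀] [Algebra K E₀]
    (T : Finset (HeightOneSpectrum R)) : Prop :=
  ∃ δ : ℝ, 0 < δ ∧ ∃ h0 : ℕ, ∀ h : ℕ, h0 ≤ h →
    (All R O π g h).Finite ∧ 0 < (AllS R O π g h).ncard ∧
    δ * (AllS R O π g h).ncard ≤
      {f ∈ AllS R O π g h | Irreducible (fk K f) ∧ SelK (fkE K E₀ f) ∧ TowP K T f}.ncard

/-- The conclusion for `a_1 = 0`. -/
def PosTZ (O : ValuationSubring K) (π : K) (g : ℕ) (E₀ : Type) [Field E₀] [Algebra K E₀]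
    (T : Finset (HeightOneSpectrum R)) : Prop :=
  ∃ δ : ℝ, 0 < δ ∧ ∃ h0 : ℕ, ∀ h : ℕ, h0 ≤ h →
    0 < {f ∈ AllS R O π g h | f.coeff (2 * g) = 0}.ncard ∧
    δ * {f ∈ AllS R O π g h | f.coeff (2 * g) = 0}.ncard ≤
      {f ∈ AllS R O π g h | f.coeff (2 * g) = 0 ∧ Irreducible (fk K f) ∧
        SelK (fkE K E₀ f) ∧ TowP K T f}.ncard

end DefsZ

/-! ### Places -/

/-- ZVAL: the valuation rings of `K`. -/
def ZVALStmt : Prop :=
  ∀ (R : Type) [CommRing R] [IsDedekindDomain R] (K : Type) [Field K] [Algebra R K]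
    [IsFractionRing R K],
    (∀ w : ValuationSubring K, w ≠ ⊤ → (∀ a : R, algebraMap R K a ∈ w) →
      ∃ P : HeightOneSpectrum R, w = vP K P) ∧
    (∀ P : HeightOneSpectrum R, vP K P ≠ ⊤ ∧ (∀ a : R, algebraMap R K a ∈ vP K P) ∧
      (vP K P : Set K) = {x | ∃ m : R, m ∉ P.asIdeal ∧ ∃ a : R,
        algebraMap R K m * x = algebraMap R K a}) ∧
    (Function.Injective fun P : HeightOneSpectrum R => vP K P)

/-- ZIRV: irreducible modulo `P`.  (`f` monic.) -/
def ZIRVStmt : Prop :=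
  ∀ (R : Type) [CommRing R] [IsDedekindDomain R] (K : Type) [Field K] [Algebra R K]
    [IsFractionRing R K] (P : HeightOneSpectrum R) (f : R[X]), f.Monic →
    (IrrV (vP K P) (fk K f) ↔ Irreducible (md P.asIdeal f))

/-- ZLOC: completions are as required in `Loc`.  (LOCC of TOW, `H49/TOW/LOCC`.) -/
def ZLOCStmt : Prop :=
  ∀ (E : Type) [Field E], (2 : E) ≠ 0 → (∃ p : ℕ, p.Prime ∧ CharP E p) →
    ∀ (L : Type) [Field L] (O' : ValuationSubring L) (ι : E →+* L), Cpl E L O' ι →
    ∀ π : L, π ∈ O' → π⁻¹ ∉ O' → (∀ z : L, z ∈ O' → z⁻¹ ∉ O' → z / π ∈ O') → Loc L O' π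

/-- ZUNC: at an unramified prime.  (UNC of TOW, `H8/TOW/SPIC`.) -/
def ZUNCStmt : Prop :=
  ∀ (R : Type) [CommRing R] [IsDedekindDomain R] (K : Type) [Field K] [Algebra R K]
    [IsFractionRing R K] (O : ValuationSubring K) (π : K), GR R O π →
    ∀ (P : HeightOneSpectrum R) (ϖ : R), ϖ ∈ P.asIdeal → ϖ ∉ P.asIdeal ^ 2 →
    ∀ (E : Type) [Field E] [Algebra K E] (L : Type) [Field L] (O' : ValuationSubring L)
    (ι : E →+* L), AbvV E (vP K P) L O' ι → UnrV E (vP K P) →
    UCP P ϖ L O' (ι.comp (algebraMap K E))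

/-- ZSPC: at a prime which splits completely the completion is that of `K`.  (SPIC of TOW,
`H8/TOW/SPIC`.) -/
def ZSPCStmt : Prop :=
  ∀ (R : Type) [CommRing R] [IsDedekindDomain R] (K : Type) [Field K] [Algebra R K]
    [IsFractionRing R K] (O : ValuationSubring K) (π : K), GR R O π →
    ∀ (P : HeightOneSpectrum R) (ϖ : R), ϖ ∈ P.asIdeal → ϖ ∉ P.asIdeal ^ 2 →
    ∀ (E : Type) [Field E] [Algebra K E] (L : Type) [Field L] (O' : ValuationSubring L)
    (ι : E →+* L), AbvV E (vP K P) L O' ι → SplV E (vP K P) →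
    CompP P ϖ L O' (ι.comp (algebraMap K E))

/-- ZEXC: there is a completion above every prime.  (EXC of TOW, `H49/TOW/EXC`; the integral
closure of `R` in `E`.) -/
def ZEXCStmt : Prop :=
  ∀ (R : Type) [CommRing R] [IsDedekindDomain R] (K : Type) [Field K] [Algebra R K]
    [IsFractionRing R K] (O : ValuationSubring K) (π : K), GR R O π →
    ∀ (P : HeightOneSpectrum R) (E : Type) [Field E] [Algebra K E], FiniteDimensional K E →
    IsGalois K E → ∃ (L : Type) (_ : Field L) (O' : ValuationSubring L) (ι : E →+* L),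
      AbvV E (vP K P) L O' ι

/-- ZRAM: almost all primes are unramified.  (RAMF of TOW, `H49/TOW/RAMF`.) -/
def ZRAMStmt : Prop :=
  ∀ (R : Type) [CommRing R] [IsDedekindDomain R] (K : Type) [Field K] [Algebra R K]
    [IsFractionRing R K] (O : ValuationSubring K) (π : K), GR R O π →
    ∀ (E : Type) [Field E] [Algebra K E], FiniteDimensional K E → IsGalois K E →
    ∃ Z : Finset (HeightOneSpectrum R), ∀ P : HeightOneSpectrum R, P ∉ Z → UnrV E (vP K P)

/-- ZSPL: infinitely many primes split completely.  (SPLI of TOW, `H53/TOW/SPLI`: let `θ` be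
a generator of `E` over `K`, integral over `R`, with minimal polynomial `m`; for large `a` in `R`
the elements `m(a)`, `a` divisible by many primes and by `m(0)`, are `m(0)` times an element
congruent to `1`, not a unit by GRD; a prime where `m` has a simple root splits completely.) -/
def ZSPLStmt : Prop :=
  ∀ (R : Type) [CommRing R] [IsDedekindDomain R] (K : Type) [Field K] [Algebra R K]
    [IsFractionRing R K] (O : ValuationSubring K) (π : K), GR R O π →
    ∀ (E : Type) [Field E] [Algebra K E], FiniteDimensional K E → IsGalois K E →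
    ∀ A : Finset (HeightOneSpectrum R), ∃ P : HeightOneSpectrum R, P ∉ A ∧ SplV E (vP K P)

/-! ### Local classes -/

/-- ZTYI: the type does not depend on the completion.  (TYI of TOW, `H8/TOW/TYI`.) -/
def ZTYIStmt : Prop :=
  ∀ (R : Type) [CommRing R] [IsDedekindDomain R] (K : Type) [Field K] [Algebra R K]
    [IsFractionRing R K] (O : ValuationSubring K) (π : K), GR R O π →
    ∀ (g : ℕ) (P : HeightOneSpectrum R) (ϖ : R), 1 ≤ g → ∀ (f : R[X]), f.Monic →
    f.natDegree = 2 * g + 1 →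
    ∀ (L : Type) [Field L] (O₁ : ValuationSubring L) (ι : K →+* L), CompP P ϖ L O₁ ι →
    ∀ (L' : Type) [Field L'] (O₂ : ValuationSubring L') (ι' : K →+* L'), CompP P ϖ L' O₂ ι' →
    ∀ (c : O₁) (γ : O₁[X]) (c' : O₂) (γ' : O₂[X]), OkL O₁ g γ → OkL O₂ g γ' →
    (fk K f).map ι = oL O₁ ((X - C c) * γ) → (fk K f).map ι' = oL O₂ ((X - C c') * γ') →
    ∀ (α : K[X]) (x x' : Ty), IsCoprime α (fk K f) → NSq (fk K f) α →
      TyL O₁ (ι (algebraMap R K ϖ)) c γ x (α.map ι) →
      TyL O₂ (ι' (algebraMap R K ϖ)) c' γ' x' (α.map ι') → x = x'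

/-- ZUDA: smooth points and unramified extensions.  (UDA of TOW, `H78/TOW/UDA`.) -/
def ZUDAStmt : Prop :=
  ∀ (R : Type) [CommRing R] [IsDedekindDomain R] (K : Type) [Field K] [Algebra R K]
    [IsFractionRing R K] (O : ValuationSubring K) (π : K), GR R O π →
    ∀ (P : HeightOneSpectrum R) (ϖ : R) (L : Type) [Field L] (O' : ValuationSubring L)
    (ι : K →+* L), UCP P ϖ L O' ι → ∀ f : R[X], f.Monic →
    ∃ fO : O'[X], fO.Monic ∧ fO.natDegree = f.natDegree ∧ oL O' fO = (fk K f).map ι ∧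
      (∀ ϖ' : O', (ϖ' : L) = ι (algebraMap R K ϖ) → ∀ γ : O'[X], γ.Monic →
        Irreducible (rd O' γ) → InSq ϖ' fO γ → Sing P.asIdeal f)

/-- ZUDB: unit classes and unramified extensions.  (UDB of TOW, `H81/TOW/UDB`.) -/
def ZUDBStmt : Prop :=
  ∀ (R : Type) [CommRing R] [IsDedekindDomain R] (K : Type) [Field K] [Algebra R K]
    [IsFractionRing R K] (O : ValuationSubring K) (π : K), GR R O π →
    ∀ (P : HeightOneSpectrum R) (ϖ : R) (L : Type) [Field L] (O' : ValuationSubring L)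
    (ι : K →+* L), UCP P ϖ L O' ι → ∀ f : R[X], f.Monic → ¬ Sing P.asIdeal f →
    ∀ fO : O'[X], oL O' fO = (fk K f).map ι → ∀ α : K[X], IsCoprime α (fk K f) →
    USL O' fO (α.map ι) → US P.asIdeal f α

/-- ZLDA: the classes of the twist, over `E`, where the twist and `E` are unramified.  (LDAE of
TOW, `H78/TOW/LDE`.) -/
def ZLDAStmt : Prop :=
  ∀ (R : Type) [CommRing R] [IsDedekindDomain R] (K : Type) [Field K] [Algebra R K]
    [IsFractionRing R K] (O : ValuationSubring K) (π : K), GR R O π →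
    ∀ (g : ℕ) (P : HeightOneSpectrum R) (ϖ : R) (E : Type) [Field E] [Algebra K E] (L : Type)
    [Field L] (O' : ValuationSubring L) (ι : E →+* L),
    UCP P ϖ L O' (ι.comp (algebraMap K E)) → ∀ (f : R[X]) (d : R) (p : E[X]), f.Monic →
    f.natDegree = 2 * g + 1 → ¬ Sing P.asIdeal f → d ∉ P.asIdeal → IsCoprime p (fkE K E f) →
    NSq (fkE K E f) p → LSDEK (K := K) ι d f p → ∀ fO : O'[X],
    oL O' fO = (fkE K E f).map ι → USL O' fO (p.map ι)

/-- ZLDB: the classes of the twist, over `E`, where the twist is ramified and `E` is not.  (LDBE of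
TOW, `H78/TOW/LDE`.) -/
def ZLDBStmt : Prop :=
  ∀ (R : Type) [CommRing R] [IsDedekindDomain R] (K : Type) [Field K] [Algebra R K]
    [IsFractionRing R K] (O : ValuationSubring K) (π : K), GR R O π →
    ∀ (g : ℕ) (P : HeightOneSpectrum R) (ϖ : R) (E : Type) [Field E] [Algebra K E] (L : Type)
    [Field L] (O' : ValuationSubring L) (ι : E →+* L), 1 ≤ g →
    UCP P ϖ L O' (ι.comp (algebraMap K E)) →
    ∀ (f : R[X]) (d : R) (p : E[X]) (c : O') (γ : O'[X]) (x : Ty), f.Monic →
    f.natDegree = 2 * g + 1 → OkL O' g γ → (fkE K E f).map ι = oL O' ((X - C c) * γ) →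
    d ∈ P.asIdeal → d ∉ P.asIdeal ^ 2 → IsCoprime p (fkE K E f) → NSq (fkE K E f) p →
    LSDEK (K := K) ι d f p →
    TyL O' (ι (algebraMap K E (algebraMap R K ϖ))) c γ x (p.map ι) → x.2 = 0

/-- ZTWS: a nontrivial class of the twist over `E`.  (TWSE of TOW, `H58/TOW/TWSE`.) -/
def ZTWSStmt : Prop :=
  ∀ (R : Type) [CommRing R] [IsDomain R] (K : Type) [Field K] [Algebra R K]
    [IsFractionRing R K] (E : Type) [Field E] [Algebra K E] (f : R[X]) (d : R), f.Monic →
    d ≠ 0 → ¬ SelK (fkE K E (f.scaleRoots d)) →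
    ∃ p : E[X], IsCoprime p (fkE K E f) ∧ NSq (fkE K E f) p ∧
      (¬ ∃ s : E[X], fkE K E f ∣ p - s ^ 2) ∧
      ∀ (L : Type) [Field L] (O' : ValuationSubring L) (ι : E →+* L), Cpl E L O' ι →
        LSDEK (K := K) ι d f p

/-- ZIRS: scaling of the roots and irreducibility modulo `P`.  (IRS, IRS2 of TOW,
`H81/TOW/IRS`.) -/
def ZIRSStmt : Prop :=
  ∀ (R : Type) [CommRing R] [IsDedekindDomain R] (P : HeightOneSpectrum R) (d : R) (f : R[X]),
    f.Monic → 2 ≤ f.natDegree →
    (Irreducible (md P.asIdeal (f.scaleRoots d)) → Irreducible (md P.asIdeal f)) ∧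
    (d ∉ P.asIdeal → Irreducible (md P.asIdeal f) →
      Irreducible (md P.asIdeal (f.scaleRoots d)))

/-- ZON3: the main step.  (ON3 of TOW, `H29/TOW/ON3`, with ONEK in place of ONE; GAL and USLM of
TOW are general.) -/
def ZON3Stmt : Prop :=
  ∀ (R : Type) [CommRing R] [IsDedekindDomain R] (K : Type) [Field K] [Algebra R K]
    [IsFractionRing R K] (O : ValuationSubring K) (π : K), GR R O π →
    ∀ (g : ℕ) (Ram : Finset (HeightOneSpectrum R)), 1 ≤ g → Rec (R := R) (O := O) π Ram →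
    OneTP O π g Ram

/-! ### Data and assembly -/

/-- ZCLS: representatives of the ideal classes prime to the primes of `Z`.  (CLSK, `H81/T1/CLSK`:
every ideal class contains an ideal which is prime to the primes of `Z`.) -/
def ZCLSStmt : Prop :=
  ∀ (R : Type) [CommRing R] [IsDedekindDomain R] (K : Type) [Field K] [Algebra R K]
    [IsFractionRing R K] (O : ValuationSubring K) (π : K), GR R O π →
    ∀ Z : Finset (HeightOneSpectrum R), ∃ B : Finset (HeightOneSpectrum R), Disjoint B Z ∧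
      ∀ P : HeightOneSpectrum R, P ∉ B → ∃ d : R, d ∈ P.asIdeal ∧ d ∉ P.asIdeal ^ 2 ∧
        ∀ P' : HeightOneSpectrum R, P' ≠ P → d ∈ P'.asIdeal → P' ∈ B

/-- ZEXD: existence of the data at `T`, with `T` in a given infinite set.  (EXDB,
`H91/T1/EXDB`.) -/
def ZEXDStmt : Prop :=
  ∀ (R : Type) [CommRing R] [IsDedekindDomain R] (K : Type) [Field K] [Algebra R K]
    [IsFractionRing R K] (O : ValuationSubring K) (π : K), GR R O π →
    ∀ Q : Set (HeightOneSpectrum R),
    (∀ A : Finset (HeightOneSpectrum R), ∃ P ∈ Q, P ∉ A) →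
    (∀ b : ℕ, {P : HeightOneSpectrum R | Nm P ≤ b}.Finite) →
    ∀ (g : ℕ) (D₀ : Dat R O) (k b : ℕ), 1 ≤ g → D₀.Ok g → D₀.T = ∅ →
    ∃ D : Dat R O, D.Ok g ∧ D.T.card = k ∧ (∀ P ∈ D.T, b < Nm P ∧ P ∈ Q) ∧ D.T' = D₀.T' ∧
      D.ρ = D₀.ρ ∧ D.top = D₀.top

/-- ZTRA: translation of `x`.  (TRNE of TOW, `H58/TOW/TRNE`; TRAK.) -/
def ZTRAStmt : Prop :=
  ∀ (R : Type) [CommRing R] [IsDedekindDomain R] (K : Type) [Field K] [Algebra R K]
    [IsFractionRing R K] (T : Finset (HeightOneSpectrum R)) (f : R[X]) (c : R), f.Monic →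
    (TowP K T (f.comp (X - C c)) ↔ TowP K T f) ∧
    ∀ (E : Type) [Field E] [Algebra K E],
      (SelK (fkE K E (f.comp (X - C c))) ↔ SelK (fkE K E f))

/-- ZZER: the equations with `a_1 = 0`.  (ZERK, `H71/T1/ZERK`.) -/
def ZZERStmt : Prop :=
  ∀ (R : Type) [CommRing R] [IsDedekindDomain R] (K : Type) [Field K] [Algebra R K]
    [IsFractionRing R K] (O : ValuationSubring K) (π : K), GR R O π →
    ∀ g : ℕ, 1 ≤ g → IsUnit ((2 * g + 1 : ℕ) : R) → ∀ (E₀ : Type) [Field E₀] [Algebra K E₀]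
    (T : Finset (HeightOneSpectrum R)), PosT R O π g E₀ T → PosTZ R O π g E₀ T

/-- ZPOS: the theorem in the abstract setting, from its parts (helper29). -/
def ZPOSStmt : Prop :=
  ∀ (R : Type) [CommRing R] [IsDedekindDomain R] (K : Type) [Field K] [Algebra R K]
    [IsFractionRing R K] (O : ValuationSubring K) (π : K), GR R O π → Der R O π → Mink R O π →
    (∃ Ram : Finset (HeightOneSpectrum R), Rec (R := R) (O := O) π Ram) →
    ∀ g : ℕ, 1 ≤ g → ∀ (E₀ : Type) [Field E₀] [Algebra K E₀], FiniteDimensional K E₀ →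
    IsGalois K E₀ → (∃ m : ℕ, Module.finrank K E₀ = 2 ^ m) →
    ∃ T : Finset (HeightOneSpectrum R), (∀ P ∈ T, SplV E₀ (vP K P)) ∧ PosT R O π g E₀ T

end Pool.T1
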