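import Pool.Agent.H29.T1.POSb
import Pool.Agent.H29.T1.Conc

/-!
# T1: from the abstract to the concrete setting
-/

set_option autoImplicit false

namespace Pool.T1

open Polynomial Matrix Pool.HYP Pool.TOW Pool.AVS IsDedekindDomain

section

variable {F : Type} [Field F] {K : Type} [Field K] [Algebra (RatFunc F) K]
  [FiniteDimensional (RatFunc F) K]

theorem fk_inj : Function.Injective fun f : (RR F K)[X] => fk K f :=
  map_injective _ (IsFractionRing.injective (RR F K) K)

theorem hyp_image {O : ValuationSubring K} {π : K}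
    (hP : ∀ (m : ℕ) (a : K), Pole F O m a ↔
      ∃ r ∈ Lm (RR F K) O π (m : ℤ), algebraMap (RR F K) K r = a) (g h : ℕ) :
    HypK F O g h = (fun f : (RR F K)[X] => fk K f) '' AllS (RR F K) O π g h := by
  have hinj := IsFractionRing.injective (RR F K) K
  ext f
  constructor
  · rintro ⟨hm, hd, hc, hs⟩
    have hl : f ∈ lifts (algebraMap (RR F K) K) := by
      rw [lifts_iff_coeff_lifts]
      intro n
      by_cases hn : n ≤ 2 * g + 1
      · obtain ⟨r, -, hr⟩ := (hP _ _).1 (hc (2 * g + 1 - n) (by omega))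
        have h1 : 2 * g + 1 - (2 * g + 1 - n) = n := by omega
        rw [h1] at hr
        exact ⟨r, hr⟩
      · rw [coeff_eq_zero_of_natDegree_lt (by omega)]
        exact ⟨0, map_zero _⟩
    obtain ⟨q, hq, hqd, hqm⟩ := lifts_and_natDegree_eq_and_monic hl hm
    refine ⟨q, ⟨⟨hqm, hqd.trans hd, ?_⟩, ?_⟩, hq⟩
    · intro i hi
      obtain ⟨r, hr1, hr2⟩ := (hP _ _).1 (hc i hi)
      have h2 : algebraMap (RR F K) K (q.coeff (2 * g + 1 - i)) = algebraMap (RR F K) K r := by
        rw [hr2, ← hq, coeff_map]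
      rw [hinj h2]
      exact hr1
    · change (q.map (algebraMap (RR F K) K)).Separable
      rw [hq]
      exact hs
  · rintro ⟨q, ⟨⟨hm, hd, hc⟩, hs⟩, rfl⟩
    refine ⟨hm.map _, ?_, ?_, hs⟩
    · change (q.map (algebraMap (RR F K) K)).natDegree = _
      rw [natDegree_map_eq_of_injective hinj, hd]
    · intro i hi
      refine (hP _ _).2 ⟨_, hc i hi, ?_⟩
      change _ = (q.map (algebraMap (RR F K) K)).coeff _
      rw [coeff_map]

theorem sep_image {A : Set (RR F K)[X]} (s : K[X] → Prop) :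
    {f ∈ (fun f : (RR F K)[X] => fk K f) '' A | s f}.ncard =
      {f ∈ A | s (fk K f)}.ncard := by
  have h1 : {f ∈ (fun f : (RR F K)[X] => fk K f) '' A | s f} =
      (fun f : (RR F K)[X] => fk K f) '' {f ∈ A | s (fk K f)} := by
    ext f
    constructor
    · rintro ⟨⟨q, hq, rfl⟩, h2⟩
      exact ⟨q, ⟨hq, h2⟩, rfl⟩
    · rintro ⟨q, ⟨hq, h2⟩, rfl⟩
      exact ⟨⟨q, hq, rfl⟩, h2⟩
  rw [h1, Set.ncard_image_of_injective _ fk_inj]

end

theorem fin (hGRI : GRIStmt) (hDER : DERIStmt) (hMIN : MINKIStmt) (hREC : RECIStmt)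
    (hPOS : POSKStmt) (hZER : ZERKStmt) : MainStmt := by
  intro F _ _ h2 K _ _ _ _ O hO g hg
  obtain ⟨⟨π, hπ⟩, hall⟩ := hGRI F h2 K O hO
  obtain ⟨H, hP⟩ := hall π hπ
  have hpos : Pos (RR F K) O π g := hPOS (RR F K) K O π H (hDER F h2 K O hO π hπ)
    (hMIN F h2 K O hO π hπ) (hREC F h2 K O hO π hπ) g hg
  obtain ⟨δ, hδ, h0, hh⟩ := hpos
  have hposz : ((2 * g + 1 : ℕ) : F) ≠ 0 → PosZ (RR F K) O π g := by
    intro hN
    refine hZER (RR F K) K O π H g hg ?_ ⟨δ, hδ, h0, hh⟩
    have h1 : ((2 * g + 1 : ℕ) : RR F K) = xR F K (C ((2 * g + 1 : ℕ) : F)) := by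
      rw [map_natCast, map_natCast]
    rw [h1]
    exact ((isUnit_iff_ne_zero.2 hN).map C).map (xR F K)
  have hA : ∀ h, (HypK F O g h) = (fun f : (RR F K)[X] => fk K f) '' AllS (RR F K) O π g h :=
    fun h => hyp_image hP g h
  have hn : ∀ h, (HypK F O g h).ncard = (AllS (RR F K) O π g h).ncard := by
    intro h
    rw [hA h, Set.ncard_image_of_injective _ fk_inj]
  have hfinS : ∀ h, h0 ≤ h → (AllS (RR F K) O π g h).Finite := fun h hh' =>
    (hh h hh').1.subset fun f hf => hf.1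
  have hc2 : ∀ q : (RR F K)[X], (fk K q).coeff (2 * g) = 0 ↔ q.coeff (2 * g) = 0 := by
    intro q
    rw [coeff_map, map_eq_zero_iff _ (IsFractionRing.injective (RR F K) K)]
  by_cases hN : ((2 * g + 1 : ℕ) : F) ≠ 0
  · obtain ⟨δ', hδ', h0', hh'⟩ := hposz hN
    refine ⟨min δ δ', lt_min hδ hδ', max h0 h0', fun h hle => ?_⟩
    have hle1 : h0 ≤ h := le_trans (le_max_left _ _) hle
    have hle2 : h0' ≤ h := le_trans (le_max_right _ _) hle
    obtain ⟨h3, h4, h5⟩ := hh h hle1
    obtain ⟨h6, h7⟩ := hh' h hle2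
    refine ⟨?_, ?_, ?_, fun _ => ⟨?_, ?_⟩⟩
    · rw [hA h]
      exact (hfinS h hle1).image _
    · rw [hn]
      exact h4
    · rw [hn]
      refine (mul_le_mul_of_nonneg_right (min_le_left _ _) (by positivity)).trans (h5.trans ?_)
      rw [hA h, sep_image (fun f => SelK f ∧ Irreducible f)]
    · rw [hA h, sep_image (fun f => f.coeff (2 * g) = 0)]
      simp only [hc2]
      exact h6
    · rw [hA h, sep_image (fun f => f.coeff (2 * g) = 0),
        sep_image (fun f => f.coeff (2 * g) = 0 ∧ SelK f ∧ Irreducible f)]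
      simp only [hc2]
      exact (mul_le_mul_of_nonneg_right (min_le_right _ _) (by positivity)).trans h7
  · refine ⟨δ, hδ, h0, fun h hle => ?_⟩
    obtain ⟨h3, h4, h5⟩ := hh h hle
    refine ⟨?_, ?_, ?_, fun h6 => (hN h6).elim⟩
    · rw [hA h]
      exact (hfinS h hle).image _
    · rw [hn]
      exact h4
    · rw [hn]
      refine h5.trans ?_
      rw [hA h, sep_image (fun f => SelK f ∧ Irreducible f)]

end Pool.T1
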