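import Pool.Agent.H41.T1.S5

/-!
# T1: the count in POSK
-/

set_option autoImplicit false

namespace Pool.T1

open Polynomial Matrix Pool.HYP Pool.TOW Pool.AVS IsDedekindDomain

theorem pigeon {α β ι : Type} (A : Set α) (hA : A.Finite) (B : Set β) (hB : B.Finite)
    (I : Finset ι) (φ : ι → α → β) (hφ : ∀ i ∈ I, Function.Injective (φ i)) (bad ns : Set α)
    (hb : 8 * {a ∈ A | a ∈ bad}.ncard ≤ A.ncard) (hn : 4 * {a ∈ A | a ∈ ns}.ncard ≤ A.ncard)
    (hg : ∀ a ∈ A, a ∉ bad → a ∉ ns → ∃ i ∈ I, φ i a ∈ B) :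
    A.ncard ≤ 2 * I.card * B.ncard := by
  classical
  have h1 : A ⊆ ({a ∈ A | a ∈ bad} ∪ {a ∈ A | a ∈ ns}) ∪
      ⋃ i ∈ I, {a ∈ A | φ i a ∈ B} := by
    intro a ha
    by_cases h2 : a ∈ bad
    · exact Or.inl (Or.inl ⟨ha, h2⟩)
    by_cases h3 : a ∈ ns
    · exact Or.inl (Or.inr ⟨ha, h3⟩)
    obtain ⟨i, hi, h4⟩ := hg a ha h2 h3
    refine Or.inr ?_
    simp only [Set.mem_iUnion]
    exact ⟨i, hi, ha, h4⟩
  have hfin : ∀ s : α → Prop, {a ∈ A | s a}.Finite := fun s => hA.subset (Set.sep_subset _ _)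
  have h5 : ∀ J : Finset ι, J ⊆ I → (⋃ i ∈ J, {a ∈ A | φ i a ∈ B}).Finite ∧
      (⋃ i ∈ J, {a ∈ A | φ i a ∈ B}).ncard ≤ J.card * B.ncard := by
    intro J
    induction J using Finset.induction_on with
    | empty => intro _; simp
    | insert i J hi ih =>
      intro hJ
      obtain ⟨h6, h7⟩ := ih (fun j hj => hJ (Finset.mem_insert_of_mem hj))
      have h8 : (⋃ j ∈ insert i J, {a ∈ A | φ j a ∈ B}) =
          {a ∈ A | φ i a ∈ B} ∪ ⋃ j ∈ J, {a ∈ A | φ j a ∈ B} := by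
        simp only [Finset.mem_insert, Set.iUnion_iUnion_eq_or_left]
      rw [h8]
      refine ⟨(hfin _).union h6, ?_⟩
      rw [Finset.card_insert_of_notMem hi]
      have h9 : {a ∈ A | φ i a ∈ B}.ncard ≤ B.ncard := by
        refine Set.ncard_le_ncard_of_injOn (φ i) (fun a ha => ha.2) ?_ hB
        exact fun a _ b _ hab => hφ i (hJ (Finset.mem_insert_self _ _)) hab
      have h10 := Set.ncard_union_le {a ∈ A | φ i a ∈ B} (⋃ j ∈ J, {a ∈ A | φ j a ∈ B})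
      have h11 : (J.card + 1) * B.ncard = J.card * B.ncard + B.ncard := by ring
      omega
  obtain ⟨h6, h7⟩ := h5 I (fun _ h => h)
  have h12 : A.ncard ≤ ({a ∈ A | a ∈ bad} ∪ {a ∈ A | a ∈ ns} ∪
      ⋃ i ∈ I, {a ∈ A | φ i a ∈ B}).ncard :=
    Set.ncard_le_ncard h1 (((hfin _).union (hfin _)).union h6)
  have h13 := Set.ncard_union_le ({a ∈ A | a ∈ bad} ∪ {a ∈ A | a ∈ ns})
    (⋃ i ∈ I, {a ∈ A | φ i a ∈ B})
  have h14 := Set.ncard_union_le {a ∈ A | a ∈ bad} {a ∈ A | a ∈ ns}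
  have h15 : 2 * I.card * B.ncard = 2 * (I.card * B.ncard) := by ring
  omega

/-- The size of `All`. -/
theorem all_pos {R : Type} [CommRing R] [IsDomain R] {K : Type} [Field K] [Algebra R K]
    {O : ValuationSubring K} {π : K} (_ : GR R O π) (g h : ℕ)
    (hfin : (All R O π g h).Finite) : 0 < (All R O π g h).ncard := by
  rw [Set.ncard_pos hfin]
  refine ⟨X ^ (2 * g + 1), monic_X_pow _, natDegree_X_pow _, ?_⟩
  intro i hi
  rw [coeff_X_pow]
  by_cases h0 : i = 0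
  · subst h0
    simp [Lm]
  · have h1 : ¬ (2 * g + 1 - i = 2 * g + 1) := by omega
    rw [if_neg h1]
    simp [Lm]

end Pool.T1
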