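import Pool.Agent.H29.T1.ZS
import Pool.Agent.H94.T1.DENK
import Pool.Agent.H58.T1.S1
import Pool.Agent.H30.T1.S4

/-!
# T1T, row ZPOS: the theorem in the abstract setting, from its parts
-/

set_option autoImplicit false

namespace Pool.T1

open Polynomial Matrix Pool.HYP Pool.TOW Pool.AVS IsDedekindDomain

theorem zpos_core {R : Type} [CommRing R] [IsDedekindDomain R] {K : Type} [Field K] [Algebra R K]
    [IsFractionRing R K] {O : ValuationSubring K} {π : K} (H : GR R O π)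
    (hCLS : ZCLSStmt) (hDS : DSKStmt) (hEA : EXDAStmt) (hEB : ZEXDStmt) (hALL : ALLKStmt)
    (hFAM : FAMKStmt) (hIRR : IRRKStmt) (hTWF : TWFKStmt) (hTWJ : TWJKStmt) (hGRO : GROWStmt)
    (hBAD : BADKStmt) (hFL : FAMLKStmt) (hRAM : ZRAMStmt) (hSPL : ZSPLStmt) (hIRS : ZIRSStmt)
    (hU : CntU R O π) (hL : ∃ c : ℕ, CntL R O π c) (hX : ∃ C : ℕ, CntX R O π C)
    (hC : ∃ C : ℕ, CntC R O π C)
    (hfinP : ∀ b : ℕ, {P : HeightOneSpectrum R | Nm P ≤ b}.Finite)
    (g : ℕ) (hg : 1 ≤ g) (hKey : ∃ C : ℤ, KeyC R O π g C)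
    (Ram A : Finset (HeightOneSpectrum R)) (hone : OneTP O π g Ram) (hden : DenP O π g A)
    (E₀ : Type) [Field E₀] [Algebra K E₀] (hf0 : FiniteDimensional K E₀) (hg0 : IsGalois K E₀)
    (hd0 : ∃ m : ℕ, Module.finrank K E₀ = 2 ^ m) :
    ∃ T : Finset (HeightOneSpectrum R), (∀ P ∈ T, SplV E₀ (vP K P)) ∧ PosT R O π g E₀ T := by
  classical
  have : FaithfulSMul R K := inferInstance
  obtain ⟨Z, hZ⟩ := hRAM R K O π H E₀ hf0 hg0
  obtain ⟨B, hBZ, hB⟩ := hCLS R K O π H Z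
  set T' : Finset (HeightOneSpectrum R) := A ∪ (Ram ∪ (B ∪ Z)) with hT'
  obtain ⟨D₀, hD₀, hT0, hT'0⟩ := hEA R K O π H g T' hg
  obtain ⟨cL, hcL⟩ := hL
  have hFamL : ∃ c : ℕ, FamL R O π g c := ⟨_, hFL R K O π H hU hX cL g hcL hg⟩
  obtain ⟨k₀, b, hbad⟩ := hBAD R K O π H hU ⟨cL, hcL⟩ hC g hg hKey hFamL
    (fun D h hD f hf => (hIRR R K O π H g D h hg hD f hf).1) T'
  obtain ⟨D, hD, hcard, hb, hDT', -, -⟩ := hEB R K O π H {P | SplV E₀ (vP K P)}
    (fun A => by
      obtain ⟨P, h1, h2⟩ := hSPL R K O π H E₀ hf0 hg0 A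
      exact ⟨P, h2, h1⟩) hfinP g D₀ k₀
    (b + 2 * (2 * g + 1) * k₀) hg hD₀ hT0
  have hDT : D.T' = T' := hDT'.trans hT'0
  obtain ⟨h₁, h1⟩ := hbad D hD hDT hcard.ge (fun P hP => by
    have := (hb P hP).1
    rw [hcard]
    constructor <;> omega)
  obtain ⟨h₂, h2⟩ := hden D hD (by rw [hDT, hT']; exact Finset.subset_union_left)
  have hBT : B ⊆ D.T' := by
    rw [hDT, hT']
    exact fun x hx => Finset.mem_union_right _ (Finset.mem_union_right _
      (Finset.mem_union_left _ hx))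
  have hZT : Z ⊆ D.T' := by
    rw [hDT, hT']
    exact fun x hx => Finset.mem_union_right _ (Finset.mem_union_right _
      (Finset.mem_union_right _ hx))
  have hRT : Ram ⊆ D.T' := by
    rw [hDT, hT']
    exact fun x hx => Finset.mem_union_right _ (Finset.mem_union_left _ hx)
  have hTB : Disjoint D.T B := hD.1.mono_right hBT
  obtain ⟨E, hE⟩ := hDS R K O π H B B D.T (Finset.Subset.refl _) hTB hB
  choose! dS hdS using hE
  have hdT : ∀ S ⊆ D.T, Twi D.T D.T' S (dS S) := fun S hS => by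
    obtain ⟨h3, h4, h5, h6⟩ := (hdS S hS).2
    exact ⟨h3, h4, h5, fun P hP hP' => h6 P hP fun h => hP' (hBT h)⟩
  obtain ⟨h₃, h3⟩ := hFAM R K O π H (fun m => (hU m).1) hX g D hg hD
  obtain ⟨c, hc⟩ := hGRO R K O π H hU ⟨cL, hcL⟩ g E
  set W : ℕ := (∏ P ∈ D.T, Nm P ^ (2 * g + 1)) * (∏ P ∈ D.T', Nm P ^ (2 * g + 1)) *
    qq O ^ (2 * g + 1) with hW
  refine ⟨D.T, fun P hP => (hb P hP).2, ((c * (W * (2 * D.T.powerset.card)) + 1 : ℕ) : ℝ)⁻¹,
    by positivity, max h₁ (max h₂ h₃) + E, fun h hh => ?_⟩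
  obtain ⟨h', rfl⟩ : ∃ h', h = h' + E := ⟨h - E, by omega⟩
  have hh1 : h₁ ≤ h' := by omega
  have hh2 : h₂ ≤ h' := by omega
  have hh3 : h₃ ≤ h' := by omega
  have hfinA : ∀ n, (All R O π g n).Finite := fun n =>
    (hALL R K O π H (fun m => (hU m).1) g n).1
  have hfinS : (AllS R O π g (h' + E)).Finite := (hfinA _).subset fun f hf => hf.1
  set Bs : Set R[X] := {f ∈ AllS R O π g (h' + E) | Irreducible (fk K f) ∧
    SelK (fkE K E₀ f) ∧ TowP K D.T f} with hBs
  have hBfin : Bs.Finite := hfinS.subset fun f hf => hf.1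
  have hAfin : (Fam π g D h').Finite := (hfinA h').subset fun f hf => hf.1
  have hkey : (Fam π g D h').ncard ≤ 2 * D.T.powerset.card * Bs.ncard := by
    refine pigeon (Fam π g D h') hAfin Bs hBfin D.T.powerset
      (fun S f => f.scaleRoots (dS S)) ?_ {f | Bad K D.T f} {f | ¬ Smooth f}
      (h1 h' hh1) (h2 h' hh2) ?_
    · intro S hS
      exact hTWJ R (dS S) (hdS S (Finset.mem_powerset.1 hS)).2.1
    · intro f hf hnb hns
      have hsm : Smooth f := by
        by_contra hcon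
        exact hns hcon
      obtain ⟨S, hS, htow⟩ := hone D h' hD hRT f hf hsm hnb
      obtain ⟨hd1, hd2⟩ := hdS S hS
      have hirr := hIRR R K O π H g D h' hg hD f hf
      have htw : TowP K D.T (f.scaleRoots (dS S)) := htow _ (hdT S hS)
      refine ⟨S, Finset.mem_powerset.2 hS, ?_, ?_, ?_, htw⟩
      · exact hTWF R K O π H g h' E f (dS S) ⟨hf.1, hirr.2⟩ hd2.1 hd1
      · exact irr_scale hd2.1 hf.1.1 hirr.1
      · refine htw E₀ hf0 hg0 hd0 (fun P hP => (hb P hP).2) fun P => ?_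
        by_cases hPZ : P ∈ Z
        · right
          have hPT' : P ∈ D.T' := hZT hPZ
          have hPT : P ∉ D.T := fun h => (Finset.disjoint_left.1 hD.1) h hPT'
          have hPB : P ∉ B := fun h => (Finset.disjoint_left.1 hBZ) h hPZ
          have hρ := hD.2.2.1 P hPT'
          have hirrP : Irreducible (md P.asIdeal f) := by
            have h5 : md P.asIdeal f = md P.asIdeal (D.ρ P) := by
              have h6 := hf.2.2.2 P hPT'
              have h7 : md P.asIdeal (f - D.ρ P) = 0 := by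
                ext i
                rw [coeff_map, coeff_zero]
                exact Ideal.Quotient.eq_zero_iff_mem.2 (h6 i)
              have h8 : md P.asIdeal (f - D.ρ P) = md P.asIdeal f - md P.asIdeal (D.ρ P) :=
                Polynomial.map_sub _
              exact sub_eq_zero.1 (h8.symm.trans h7)
            rw [h5]
            exact hρ.2.2
          exact (hIRS R P (dS S) f hf.1.1 (by rw [hf.1.2.1]; omega)).2 (hd2.2.2.2 P hPT hPB)
            hirrP
        · exact Or.inl (hZ P hPZ)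
  have hFW := h3 h' hh3
  have hFW' : (Fam π g D h').ncard * W = (All R O π g h').ncard := by
    rw [← hFW, hW]
    ring
  have hAp := all_pos H g h' (hfinA h')
  have hBpos : 0 < Bs.ncard := by
    rcases Nat.eq_zero_or_pos Bs.ncard with h0 | h0
    · rw [h0, mul_zero] at hkey
      rw [Nat.le_zero.1 hkey, zero_mul] at hFW'
      omega
    · exact h0
  have hBS : Bs.ncard ≤ (AllS R O π g (h' + E)).ncard :=
    Set.ncard_le_ncard (fun f hf => hf.1) hfinS
  refine ⟨hfinA _, by omega, ?_⟩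
  have hS1 : (AllS R O π g (h' + E)).ncard ≤ c * (W * (2 * D.T.powerset.card)) * Bs.ncard := by
    calc (AllS R O π g (h' + E)).ncard ≤ (All R O π g (h' + E)).ncard :=
          Set.ncard_le_ncard (fun f hf => hf.1) (hfinA _)
      _ ≤ c * (All R O π g h').ncard := hc h'
      _ = c * ((Fam π g D h').ncard * W) := by rw [hFW']
      _ ≤ c * ((2 * D.T.powerset.card * Bs.ncard) * W) :=
          Nat.mul_le_mul_left _ (Nat.mul_le_mul_right _ hkey)
      _ = _ := by ring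
  have hS2 : ((AllS R O π g (h' + E)).ncard : ℝ) ≤
      ((c * (W * (2 * D.T.powerset.card)) + 1 : ℕ) : ℝ) * (Bs.ncard : ℝ) := by
    have : (AllS R O π g (h' + E)).ncard ≤
        (c * (W * (2 * D.T.powerset.card)) + 1) * Bs.ncard := by
      refine hS1.trans (Nat.mul_le_mul_right _ (Nat.le_succ _))
    exact_mod_cast this
  have hpos : (0 : ℝ) < ((c * (W * (2 * D.T.powerset.card)) + 1 : ℕ) : ℝ) := by positivity
  rw [inv_mul_le_iff₀ hpos]
  exact hS2

theorem zpos (hCLS : ZCLSStmt) (hDS : DSKStmt) (hEA : EXDAStmt) (hEB : ZEXDStmt)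
    (hALL : ALLKStmt) (hFAM : FAMKStmt) (hIRR : IRRKStmt) (hTWF : TWFKStmt) (hTWJ : TWJKStmt)
    (hGRO : GROWStmt) (hBAD : BADKStmt) (hFL : FAMLKStmt) (hRAM : ZRAMStmt) (hSPL : ZSPLStmt)
    (hIRS : ZIRSStmt) (hA : GRAStmt) (hB : GRBStmt)
    (hE : GREStmt) (hKEY : KEYKStmt) (hON3 : ZON3Stmt) (hDEN : DENKStmt) : ZPOSStmt := by
  intro R _ _ K _ _ _ O π H hder hmink hrec g hg E₀ _ _ hf0 hg0 hd0
  obtain ⟨-, hU, -, hL, -⟩ := hA R K O π H
  obtain ⟨C, hC⟩ := hB R K O π H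
  obtain ⟨hfin, -⟩ := hE R K O π H
  obtain ⟨Ck, -, hk⟩ := hKEY R K O π H hmink g hg
  obtain ⟨Ram, hRam⟩ := hrec
  obtain ⟨A, hAd⟩ := hDEN R K O π H hder g hg
  exact zpos_core H hCLS hDS hEA hEB hALL hFAM hIRR hTWF hTWJ hGRO hBAD hFL hRAM hSPL hIRS hU hL
    ⟨C, fun I m h1 h2 => (hC I m h1 h2).1⟩ ⟨C, fun I m h1 h2 => (hC I m h1 h2).2⟩ hfin g hg
    ⟨Ck, hk⟩ Ram A (hON3 R K O π H g Ram hg hRam) hAd E₀ hf0 hg0 hd0

end Pool.T1
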