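import Pool.Agent.H29.T1.Defs

/-!
# T1: the general setting

`R` is a Dedekind domain with field of fractions `K`, `O` a discrete valuation ring of `K` with
uniformizer `π` (the place at infinity).  The places of `K` are `O` and the primes of `R`.
-/

set_option autoImplicit false

namespace Pool.T1

open Polynomial Matrix Pool.HYP Pool.TOW Pool.AVS IsDedekindDomain

section Ring

variable (R : Type) [CommRing R] {K : Type} [Field K] [Algebra R K]

/-- The elements of `R` with a pole of order at most `m` at infinity. -/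
def Lm (O : ValuationSubring K) (π : K) (m : ℤ) : Set R := {a | algebraMap R K a * π ^ m ∈ O}

/-- The number of elements of the residue field at infinity. -/
noncomputable def qq {K : Type} [Field K] (O : ValuationSubring K) : ℕ :=
  Nat.card (IsLocalRing.ResidueField O)

/-- A Dedekind domain whose only further place is `O`. -/
structure GR [IsDomain R] (O : ValuationSubring K) (π : K) : Prop where
  two : (2 : K) ≠ 0
  char : ∃ p : ℕ, p.Prime ∧ CharP K p
  fin : ∀ I : Ideal R, I ≠ ⊥ → Finite (R ⧸ I)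
  cl : Finite (ClassGroup R)
  pi_ne : π ≠ 0
  pi_mem : π ∈ O
  pi_inv : π⁻¹ ∉ O
  val : ∀ x : K, x ≠ 0 → ∃ n : ℤ, x / π ^ n ∈ O ∧ (x / π ^ n)⁻¹ ∈ O
  res : Finite (IsLocalRing.ResidueField O)
  small : ∀ a ∈ Lm R O π (-1), a = 0
  big : ∃ c : ℕ, ∀ m : ℕ, qq O ^ m ≤ c * (Lm R O π m).ncard

/-- A nonzero derivation of `R`. -/
def Der (O : ValuationSubring K) (π : K) : Prop :=
  ∃ D : Derivation ℤ R R, (∃ a : R, D a ≠ 0) ∧
    ∃ c : ℕ, ∀ (m : ℤ) (a : R), a ∈ Lm R O π m → D a ∈ Lm R O π (m + c)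

/-- MINK: short vectors in self-dual lattices. -/
def Mink (O : ValuationSubring K) (π : K) : Prop :=
  ∀ N : ℕ, ∃ C : ℤ, ∀ (Λ : Submodule R (Fin N → K)) (Γ gi : Matrix (Fin N) (Fin N) K), Γᵀ = Γ →
    (∃ E : Matrix (Fin N) (Fin N) K, E.det ≠ 0 ∧ ∀ j, (fun i => E i j) ∈ Λ) →
    (∀ y : Fin N → K, y ∈ Λ ↔ ∀ x ∈ Λ, x ⬝ᵥ (Γ *ᵥ y) ∈ Set.range (algebraMap R K)) →
    gi.det ≠ 0 → GIn (O : Set K) (giᵀ * Γ * gi) →
    ∃ (E : Matrix (Fin N) (Fin N) K) (d : Fin N → ℤ), E.det ≠ 0 ∧ (∀ j, (fun i => E i j) ∈ Λ) ∧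
      Monotone d ∧ ∑ i, d i ≤ C ∧ ∀ i j, (gi⁻¹ * E) i j * π ^ d j ∈ O

end Ring

section Poly

variable {R : Type} [CommRing R]

/-- `p` is zero modulo the ideal `I`. -/
def Zer (I : Ideal R) (p : R[X]) : Prop := ∀ i, p.coeff i ∈ I

/-- A polynomial modulo an ideal. -/
noncomputable abbrev md (I : Ideal R) (p : R[X]) : (R ⧸ I)[X] := p.map (Ideal.Quotient.mk I)

/-- The curve `f = 0` has a singular point above `P`. -/
def Sing (P : Ideal R) (f : R[X]) : Prop :=
  ∃ γ a b c : R[X], γ.Monic ∧ Irreducible (md P γ) ∧ Zer P b ∧ Zer (P ^ 2) c ∧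
    f = γ ^ 2 * a + γ * b + c

/-- `γ` is monic of degree `n` and irreducible modulo `P`. -/
def OkP (n : ℕ) (P : Ideal R) (γ : R[X]) : Prop :=
  γ.Monic ∧ γ.natDegree = n ∧ Irreducible (md P γ)

/-- Modulo `P`, the pair `(G, S)` is congruent to the standard pair of `f`. -/
def StdP (n : ℕ) (P : Ideal R) (f : R[X]) (G S : Matrix (Fin n) (Fin n) R) : Prop :=
  ∃ a : Matrix (Fin n) (Fin n) R, a.det ∉ P ∧
    (∀ i j, (G - aᵀ * gr 0 n f 1 * a) i j ∈ P) ∧ ∀ i j, (S - aᵀ * gr 1 n f 1 * a) i j ∈ P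

variable {K : Type} [Field K] [Algebra R K]

/-- A polynomial over `R` as a polynomial over `K`. -/
noncomputable abbrev fk (K : Type) [Field K] [Algebra R K] (f : R[X]) : K[X] :=
  f.map (algebraMap R K)

/-- At `P`, the class of `h` is the class of a unit. -/
def US (P : Ideal R) (f : R[X]) (h : K[X]) : Prop :=
  ∃ (s : K[X]) (p : R[X]), IsCoprime s (fk K f) ∧ fk K f ∣ h * s ^ 2 - fk K p ∧
    IsCoprime (md P p) (md P f)

/-- At `P`, the class of `h` is trivial. -/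
def TR (P : Ideal R) (f : R[X]) (h : K[X]) : Prop :=
  ∃ (s : K[X]) (p : R[X]), IsCoprime s (fk K f) ∧ fk K f ∣ h * s ^ 2 - fk K (1 + p) ∧ Zer P p

end Poly

section Data

variable {R : Type} [CommRing R] [IsDomain R] {K : Type} [Field K] [Algebra R K]

/-- The curve `f = 0` is smooth. -/
def Smooth (f : R[X]) : Prop := ∀ P : HeightOneSpectrum R, ¬ Sing P.asIdeal f

/-- There is a nontrivial class which is the class of a unit everywhere and trivial at all primes of
`T`. -/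
def Bad (K : Type) [Field K] [Algebra R K] (T : Finset (HeightOneSpectrum R)) (f : R[X]) : Prop :=
  ∃ h : K[X], IsCoprime h (fk K f) ∧ NSq (fk K f) h ∧ (¬ ∃ s, fk K f ∣ h - s ^ 2) ∧
    (∀ P : HeightOneSpectrum R, US P.asIdeal f h) ∧ ∀ P ∈ T, TR P.asIdeal f h

/-- Local data: the primes of `T` and of `T'`, and the polynomial at infinity. -/
structure Dat (R : Type) [CommRing R] [IsDomain R] {K : Type} [Field K]
    (O : ValuationSubring K) where
  /-- the primes where `f` is linear times irreducible -/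
  T : Finset (HeightOneSpectrum R)
  /-- the primes where `f` is irreducible -/
  T' : Finset (HeightOneSpectrum R)
  /-- the roots -/
  c : HeightOneSpectrum R → R
  /-- the factors of degree `2 g` -/
  γ : HeightOneSpectrum R → R[X]
  /-- the polynomials at the primes of `T'` -/
  ρ : HeightOneSpectrum R → R[X]
  /-- the polynomial at infinity -/
  top : (IsLocalRing.ResidueField O)[X]

/-- The conditions on the data. -/
def Dat.Ok {O : ValuationSubring K} (D : Dat R O) (g : ℕ) : Prop :=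
  Disjoint D.T D.T' ∧ (∀ P ∈ D.T, OkP (2 * g) P.asIdeal (D.γ P)) ∧
    (∀ P ∈ D.T', OkP (2 * g + 1) P.asIdeal (D.ρ P)) ∧
    D.top.Monic ∧ D.top.natDegree = 2 * g + 1 ∧ Irreducible D.top

/-- The monic polynomials of degree `2 g + 1` such that `a_i` has a pole of order at most
`i h`. -/
def All (R : Type) [CommRing R] {K : Type} [Field K] [Algebra R K] (O : ValuationSubring K)
    (π : K) (g h : ℕ) : Set R[X] :=
  {f | f.Monic ∧ f.natDegree = 2 * g + 1 ∧
    ∀ i ≤ 2 * g + 1, f.coeff (2 * g + 1 - i) ∈ Lm R O π ((i * h : ℕ) : ℤ)}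

/-- The top coefficients of `f` are those of `p`. -/
def Top {O : ValuationSubring K} (π : K) (g h : ℕ) (p : (IsLocalRing.ResidueField O)[X])
    (f : R[X]) : Prop :=
  ∀ i ≤ 2 * g + 1, ∀ z : O,
    (z : K) = algebraMap R K (f.coeff (2 * g + 1 - i)) * π ^ (i * h) →
    IsLocalRing.residue O z = p.coeff (2 * g + 1 - i)

/-- The family. -/
def Fam {O : ValuationSubring K} (π : K) (g : ℕ) (D : Dat R O) (h : ℕ) : Set R[X] :=
  {f | f ∈ All R O π g h ∧ Top π g h D.top f ∧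
    (∀ P ∈ D.T, Zer P.asIdeal (f - (X - C (D.c P)) * D.γ P)) ∧
    ∀ P ∈ D.T', Zer P.asIdeal (f - D.ρ P)}

/-- `L`, with the valuation ring `O'`, is a completion of `K` at `P`, and `ϖ` is a uniformizer. -/
structure CompP (P : HeightOneSpectrum R) (ϖ : R) (L : Type) [Field L] (O' : ValuationSubring L)
    (ι : K →+* L) : Prop where
  loc : Loc L O' (ι (algebraMap R K ϖ))
  int : ∀ a : R, ι (algebraMap R K a) ∈ O'
  mem : ∀ a : R, ι (algebraMap R K a) / ι (algebraMap R K ϖ) ∈ O' ↔ a ∈ P.asIdeal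
  cpl : Cpl K L O' ι

/-- REC: reciprocity, if the primes of `Ram` are in `T'`. -/
def Rec {O : ValuationSubring K} (π : K) (Ram : Finset (HeightOneSpectrum R)) : Prop :=
  ∀ (g : ℕ) (D : Dat R O) (h : ℕ), 1 ≤ g → D.Ok g → Ram ⊆ D.T' → ∀ f ∈ Fam π g D h,
    ∀ (ϖ : HeightOneSpectrum R → R) (L : HeightOneSpectrum R → Type) [∀ P, Field (L P)]
    (O' : ∀ P, ValuationSubring (L P)) (ι : ∀ P, K →+* L P),
    (∀ P ∈ D.T, CompP P (ϖ P) (L P) (O' P) (ι P)) →
    ∀ (c : ∀ P, O' P) (γ : ∀ P, (O' P)[X]), (∀ P ∈ D.T, OkL (O' P) g (γ P) ∧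
      (fk K f).map (ι P) = oL (O' P) ((X - C (c P)) * γ P)) →
    ∀ (α β : K[X]) (x y : HeightOneSpectrum R → Ty),
    (∀ δ ∈ ({α, β} : Set K[X]), IsCoprime δ (fk K f) ∧ NSq (fk K f) δ ∧
      ∀ P : HeightOneSpectrum R, P ∉ D.T → US P.asIdeal f δ) →
    (∀ P ∈ D.T, TyL (O' P) (ι P (algebraMap R K (ϖ P))) (c P) (γ P) (x P) (α.map (ι P))) →
    (∀ P ∈ D.T, TyL (O' P) (ι P (algebraMap R K (ϖ P))) (c P) (γ P) (y P) (β.map (ι P))) →
    ∑ P ∈ D.T, ((x P).1 * (y P).2 + (x P).2 * (y P).1) = 0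

end Data

end Pool.T1
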