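import Pool.Agent.H29.TOW.Defs

/-!
# T1: hyperelliptic curves over global function fields of odd characteristic: definitions

`F` is a finite field of odd order, `K` a finite separable extension of `F(t)`, `O` a valuation ring
of `K` which is the only one not containing `t`: the place at infinity.
-/

set_option autoImplicit false

namespace Pool.T1

open Polynomial Pool.HYP Pool.TOW

/-- The 2-Selmer group over `K` of the Jacobian of `y² = f(x)` is trivial: every `p` prime to `f`
whose norm from `K[x]/(f)` is a square and whose class is, over every completion of `K`, the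
class of a divisor, is a square modulo `f`. -/
def SelK {K : Type} [Field K] (f : K[X]) : Prop :=
  ∀ p : K[X], IsCoprime p f → IsSquare (Algebra.norm K (AdjoinRoot.mk f p)) →
    (∀ (L : Type) [Field L] (O : ValuationSubring L) (ι : K →+* L), Cpl K L O ι →
      LocSol (f.map ι) (p.map ι)) →
    ∃ s : K[X], f ∣ p - s ^ 2

section Family

variable (F : Type) [Field F] {K : Type} [Field K] [Algebra (RatFunc F) K]

/-- The valuation ring `O` is the only one which does not contain `t`. -/
def OnePole (O : ValuationSubring K) : Prop :=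
  algebraMap (RatFunc F) K RatFunc.X ∉ O ∧
    ∀ O' : ValuationSubring K, algebraMap (RatFunc F) K RatFunc.X ∉ O' → O' = O

/-- The element `a` of `K` is regular outside the place of `O`, and has there a pole of order at most
`m`. -/
def Pole (O : ValuationSubring K) (m : ℕ) (a : K) : Prop :=
  (∀ O' : ValuationSubring K, algebraMap (RatFunc F) K RatFunc.X ∈ O' → a ∈ O') ∧
    ∀ π : K, π ∈ O → π⁻¹ ∉ O → a * π ^ m ∈ O

/-- The separable monic polynomials `x^(2g+1) + a_1 x^(2g) + ... + a_(2g+1)` over `K` such that `a_i`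
is regular outside the place of `O` and has there a pole of order at most `i h`. -/
def HypK (O : ValuationSubring K) (g h : ℕ) : Set K[X] :=
  {f | f.Monic ∧ f.natDegree = 2 * g + 1 ∧
    (∀ i ≤ 2 * g + 1, Pole F O (i * h) (f.coeff (2 * g + 1 - i))) ∧ f.Separable}

end Family

/-- The main theorem. -/
def MainStmt : Prop :=
  ∀ (F : Type) [Field F] [Finite F], (2 : F) ≠ 0 → ∀ (K : Type) [Field K]
    [Algebra (RatFunc F) K] [FiniteDimensional (RatFunc F) K] [Algebra.IsSeparable (RatFunc F) K]
    (O : ValuationSubring K), OnePole F O → ∀ g : ℕ, 1 ≤ g →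
    ∃ δ : ℝ, 0 < δ ∧ ∃ h0 : ℕ, ∀ h : ℕ, h0 ≤ h →
      (HypK F O g h).Finite ∧ 0 < (HypK F O g h).ncard ∧
      δ * (HypK F O g h).ncard ≤ {f ∈ HypK F O g h | SelK f ∧ Irreducible f}.ncard ∧
      (((2 * g + 1 : ℕ) : F) ≠ 0 →
        0 < {f ∈ HypK F O g h | f.coeff (2 * g) = 0}.ncard ∧
        δ * {f ∈ HypK F O g h | f.coeff (2 * g) = 0}.ncard ≤
          {f ∈ HypK F O g h | f.coeff (2 * g) = 0 ∧ SelK f ∧ Irreducible f}.ncard)

end Pool.T1
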