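import Pool.Agent.H44.T1.IDefs

/-!
# T1: elliptic curves over global function fields of odd characteristic
-/

set_option autoImplicit false

namespace Pool.T1

open Polynomial Pool.T44

/-- EFIN: the group of points is finite if the 2-Selmer group is trivial. -/
def EFINStmt : Prop :=
  ∀ (F : Type) [Field F] [Finite F], (2 : F) ≠ 0 → ∀ (K : Type) [Field K] [Algebra F K]
    [Algebra.EssFiniteType F K], Algebra.trdeg F K = 1 → ∀ v : ValuationSubring K, v ≠ ⊤ →
    ∀ f : K[X], f.Monic → f.natDegree = 3 → f.Separable → Irreducible f → SelK f →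
    {p : K × K | p.2 ^ 2 = f.eval p.1}.Finite

/-- ELLF: the theorem for elliptic curves over the function field `K`. -/
def ELLFStmt : Prop :=
  ∀ (F : Type) [Field F] [Finite F], (2 : F) ≠ 0 → ∀ (K : Type) [Field K] [Algebra F K]
    [Algebra.EssFiniteType F K], Algebra.trdeg F K = 1 → ∀ v : ValuationSubring K, v ≠ ⊤ →
    ∃ δ : ℝ, 0 < δ ∧ ∃ h0 : ℕ, ∀ h : ℕ, h0 ≤ h →
      (HypV v 1 h).Finite ∧ 0 < (HypV v 1 h).ncard ∧
      δ * (HypV v 1 h).ncard ≤
        {f ∈ HypV v 1 h | SelK f ∧ {p : K × K | p.2 ^ 2 = f.eval p.1}.Finite}.ncard ∧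
      ((3 : F) ≠ 0 →
        0 < {f ∈ HypV v 1 h | f.coeff 2 = 0}.ncard ∧
        δ * {f ∈ HypV v 1 h | f.coeff 2 = 0}.ncard ≤
          {f ∈ HypV v 1 h | f.coeff 2 = 0 ∧ SelK f ∧
            {p : K × K | p.2 ^ 2 = f.eval p.1}.Finite}.ncard)

end Pool.T1
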