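import Pool.Agent.H44.T1.IDefs

/-!
# T1T: Selmer groups over extensions: definitions

`K` is a field, a place of `K` is a valuation ring `w ≠ K` of `K`.
-/

set_option autoImplicit false

namespace Pool.T1

open Polynomial Pool.HYP Pool.TOW Pool.T44

section Places

variable {K : Type} [Field K]

/-- `L`, with the valuation ring `O`, is a completion of the extension `E` of `K` above the place
`w` of `K`. -/
def AbvV (E : Type) [Field E] [Algebra K E] (w : ValuationSubring K) (L : Type) [Field L]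
    (O : ValuationSubring L) (ι : E →+* L) : Prop :=
  Cpl E L O ι ∧ O.comap (ι.comp (algebraMap K E)) = w

/-- The place `w` of `K` splits completely in `E`: `K` is dense in every completion of `E`
above `w`. -/
def SplV (E : Type) [Field E] [Algebra K E] (w : ValuationSubring K) : Prop :=
  ∀ (L : Type) [Field L] (O : ValuationSubring L) (ι : E →+* L), AbvV E w L O ι →
    ∀ z a : L, a ≠ 0 → ∃ x : K, (z - ι (algebraMap K E x)) / a ∈ O

/-- The place `w` of `K` is unramified in `E`: the maximal ideal of every completion of `E` above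
`w` is generated by elements of `K`. -/
def UnrV (E : Type) [Field E] [Algebra K E] (w : ValuationSubring K) : Prop :=
  ∀ (L : Type) [Field L] (O : ValuationSubring L) (ι : E →+* L), AbvV E w L O ι →
    ∀ z : L, z ∈ O → z⁻¹ ∉ O →
      ∃ x : K, x ∈ w ∧ x⁻¹ ∉ w ∧ z / ι (algebraMap K E x) ∈ O

/-- The polynomial `f` has coefficients in `w` and is irreducible over the residue field. -/
def IrrV (w : ValuationSubring K) (f : K[X]) : Prop :=
  ∃ f₀ : w[X], f₀.map (algebraMap w K) = f ∧ Irreducible (f₀.map (IsLocalRing.residue w))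

/-- The 2-Selmer group of the Jacobian of `y² = f(x)` is trivial over every Galois extension `E` of
`K` whose degree is a power of two, in which the places of `T` split completely and the places
`w ≠ v` modulo which `f` is not irreducible are unramified. -/
def TowV (v : ValuationSubring K) (T : Finset (ValuationSubring K)) (f : K[X]) : Prop :=
  ∀ (E : Type) [Field E] [Algebra K E], FiniteDimensional K E → IsGalois K E →
    (∃ m : ℕ, Module.finrank K E = 2 ^ m) → (∀ w ∈ T, SplV E w) →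
    (∀ w : ValuationSubring K, w ≠ ⊤ → w ≠ v → UnrV E w ∨ IrrV w f) →
    SelK (f.map (algebraMap K E))

end Places

/-- The main theorem with towers. -/
def IntrTStmt : Prop :=
  ∀ (F : Type) [Field F] [Finite F], (2 : F) ≠ 0 → ∀ (K : Type) [Field K] [Algebra F K]
    [Algebra.EssFiniteType F K], Algebra.trdeg F K = 1 →
    ∀ v : ValuationSubring K, v ≠ ⊤ → ∀ g : ℕ, 1 ≤ g →
    ∀ (E₀ : Type) [Field E₀] [Algebra K E₀], FiniteDimensional K E₀ → IsGalois K E₀ →
    (∃ m : ℕ, Module.finrank K E₀ = 2 ^ m) →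
    ∃ T : Finset (ValuationSubring K), (∀ w ∈ T, w ≠ ⊤ ∧ w ≠ v ∧ SplV E₀ w) ∧
    ∃ δ : ℝ, 0 < δ ∧ ∃ h0 : ℕ, ∀ h : ℕ, h0 ≤ h →
      (HypV v g h).Finite ∧ 0 < (HypV v g h).ncard ∧
      δ * (HypV v g h).ncard ≤ {f ∈ HypV v g h | Irreducible f ∧
        SelK (f.map (algebraMap K E₀)) ∧ TowV v T f}.ncard ∧
      (((2 * g + 1 : ℕ) : F) ≠ 0 →
        0 < {f ∈ HypV v g h | f.coeff (2 * g) = 0}.ncard ∧
        δ * {f ∈ HypV v g h | f.coeff (2 * g) = 0}.ncard ≤
          {f ∈ HypV v g h | f.coeff (2 * g) = 0 ∧ Irreducible f ∧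
            SelK (f.map (algebraMap K E₀)) ∧ TowV v T f}.ncard)

/-- The same for `K` finite and separable over `F(t)` and a place `O`, the only one where `t` has a
pole. -/
def MainTStmt : Prop :=
  ∀ (F : Type) [Field F] [Finite F], (2 : F) ≠ 0 → ∀ (K : Type) [Field K]
    [Algebra (RatFunc F) K] [FiniteDimensional (RatFunc F) K] [Algebra.IsSeparable (RatFunc F) K]
    (O : ValuationSubring K), OnePole F O → ∀ g : ℕ, 1 ≤ g →
    ∀ (E₀ : Type) [Field E₀] [Algebra K E₀], FiniteDimensional K E₀ → IsGalois K E₀ →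
    (∃ m : ℕ, Module.finrank K E₀ = 2 ^ m) →
    ∃ T : Finset (ValuationSubring K), (∀ w ∈ T, w ≠ ⊤ ∧ w ≠ O ∧ SplV E₀ w) ∧
    ∃ δ : ℝ, 0 < δ ∧ ∃ h0 : ℕ, ∀ h : ℕ, h0 ≤ h →
      (HypK F O g h).Finite ∧ 0 < (HypK F O g h).ncard ∧
      δ * (HypK F O g h).ncard ≤ {f ∈ HypK F O g h | Irreducible f ∧
        SelK (f.map (algebraMap K E₀)) ∧ TowV O T f}.ncard ∧
      (((2 * g + 1 : ℕ) : F) ≠ 0 →
        0 < {f ∈ HypK F O g h | f.coeff (2 * g) = 0}.ncard ∧
        δ * {f ∈ HypK F O g h | f.coeff (2 * g) = 0}.ncard ≤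
          {f ∈ HypK F O g h | f.coeff (2 * g) = 0 ∧ Irreducible f ∧
            SelK (f.map (algebraMap K E₀)) ∧ TowV O T f}.ncard)

end Pool.T1
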